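import Mathlib

set_option autoImplicit false

namespace Pool.Agent.Helper919.CE

/-- The quadratic map of one level. -/
noncomputable def fq (l z : ℝ) : ℝ := l * z ^ 2 - (l - 1)

/-- One level of the decimation recursion, `b = true` for an odd index, `b = false` for an even one. -/
noncomputable def W (b : Bool) (l : ℝ) (N : ℝ → ℝ) (z : ℝ) : ℝ :=
  if b then z * N (fq l z) / (N (fq l z) + N (l - 1)) else (N (fq l z) + N (l - 1)) / (l * z)

/-- The class of functions met in the recursion. -/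
def Cl (N : ℝ → ℝ) : Prop := ∀ z, 1 ≤ z → z - 1 / z ≤ N z ∧ N z ≤ z

theorem one_le_fq {l z : ℝ} (hl : 2 ≤ l) (hz : 1 ≤ z) : 1 ≤ fq l z := by
  unfold fq
  have h1 : 0 ≤ (z - 1) * (z + 1) := mul_nonneg (by linarith) (by linarith)
  have h2 : 0 ≤ l * ((z - 1) * (z + 1)) := mul_nonneg (by linarith) h1
  nlinarith

theorem one_lt_fq {l z : ℝ} (hl : 2 ≤ l) (hz : 1 < z) : 1 < fq l z := by
  unfold fq
  have h1 : 0 < (z - 1) * (z + 1) := mul_pos (by linarith) (by linarith)
  have h2 : 0 < l * ((z - 1) * (z + 1)) := mul_pos (by linarith) h1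
  nlinarith

theorem Cl.nonneg {N : ℝ → ℝ} (h : Cl N) {z : ℝ} (hz : 1 ≤ z) : 0 ≤ N z := by
  have h1 := (h z hz).1
  have : 1 / z ≤ 1 := by rw [div_le_one (by linarith)]; exact hz
  linarith

theorem Cl.pos {N : ℝ → ℝ} (h : Cl N) {z : ℝ} (hz : 1 < z) : 0 < N z := by
  have h1 := (h z hz.le).1
  have : 1 / z < 1 := by rw [div_lt_one (by linarith)]; exact hz
  linarith

theorem Cl.den_pos {N : ℝ → ℝ} (h : Cl N) {l z : ℝ} (hl : 2 < l) (hz : 1 ≤ z) :
    0 < N (fq l z) + N (l - 1) := by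
  have h1 := h.nonneg (one_le_fq hl.le hz)
  have h2 := h.pos (z := l - 1) (by linarith)
  linarith

theorem W_false (l : ℝ) (N : ℝ → ℝ) (z : ℝ) :
    W false l N z = (N (fq l z) + N (l - 1)) / (l * z) := by simp [W]

theorem W_true (l : ℝ) (N : ℝ → ℝ) (z : ℝ) :
    W true l N z = z * N (fq l z) / (N (fq l z) + N (l - 1)) := by simp [W]

theorem cl_id : Cl (fun z => z) := fun z hz => ⟨by
  have : 0 ≤ 1 / z := by positivity
  linarith, le_refl _⟩

theorem Cl.W_false {N : ℝ → ℝ} (h : Cl N) {l : ℝ} (hl : 2 ≤ l) : Cl (W false l N) := by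
  intro z hz
  have hz0 : 0 < z := by linarith
  have hf := one_le_fq hl hz
  have ha : (1:ℝ) ≤ l - 1 := by linarith
  obtain ⟨h1, h2⟩ := h _ hf
  obtain ⟨h3, h4⟩ := h _ ha
  rw [CE.W_false]
  have hlz : 0 < l * z := by positivity
  have e1 : 1 / fq l z ≤ 1 := by rw [div_le_one (by linarith)]; exact hf
  have e2 : 1 / (l - 1) ≤ 1 := by rw [div_le_one (by linarith)]; exact ha
  have e3 : fq l z + (l - 1) = l * z * z := by unfold fq; ring
  constructor
  · rw [le_div_iff₀ hlz]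
    have : (z - 1 / z) * (l * z) = l * z * z - l := by field_simp
    rw [this]
    linarith
  · rw [div_le_iff₀ hlz]
    nlinarith

theorem Cl.W_true {N : ℝ → ℝ} (h : Cl N) {l : ℝ} (hl : 2 < l) : Cl (W true l N) := by
  intro z hz
  have hz0 : 0 < z := by linarith
  have hf := one_le_fq hl.le hz
  have ha : (1:ℝ) < l - 1 := by linarith
  obtain ⟨h1, h2⟩ := h _ hf
  obtain ⟨h3, h4⟩ := h _ ha.le
  have hd := h.den_pos hl hz
  have hA := h.pos ha
  have hF := h.nonneg hf
  rw [CE.W_true]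
  constructor
  · -- z - 1/z ≤ z F/(F+A)
    rw [le_div_iff₀ hd]
    have key : N (l - 1) * (z ^ 2 - 1) ≤ N (fq l z) := by
      have f1 : fq l z - 1 / fq l z = (fq l z - 1) * (fq l z + 1) / fq l z := by
        field_simp; ring
      have f2 : fq l z - 1 = l * (z ^ 2 - 1) := by unfold fq; ring
      have hz2 : 0 ≤ z ^ 2 - 1 := by nlinarith
      have f3 : l * (z ^ 2 - 1) ≤ (fq l z - 1) * (fq l z + 1) / fq l z := by
        rw [le_div_iff₀ (by linarith), f2]
        have : 0 ≤ l * (z ^ 2 - 1) := by positivity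
        nlinarith
      calc N (l - 1) * (z ^ 2 - 1) ≤ l * (z ^ 2 - 1) := by
            apply mul_le_mul_of_nonneg_right _ hz2; linarith
        _ ≤ _ := f3
        _ = fq l z - 1 / fq l z := f1.symm
        _ ≤ _ := h1
    have hkey : (z - 1 / z) * (N (fq l z) + N (l - 1)) =
        z * N (fq l z) - (N (fq l z) - N (l - 1) * (z ^ 2 - 1)) / z := by
      field_simp; ring
    rw [hkey]
    have : 0 ≤ (N (fq l z) - N (l - 1) * (z ^ 2 - 1)) / z := div_nonneg (by linarith) hz0.le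
    linarith
  · rw [div_le_iff₀ hd]
    have : 0 ≤ z * N (l - 1) := by positivity
    nlinarith

theorem Cl.W {N : ℝ → ℝ} (h : Cl N) {l : ℝ} (hl : 2 < l) (b : Bool) : Cl (W b l N) := by
  cases b
  · exact h.W_false hl.le
  · exact h.W_true hl

/-- `u z = √(z² - 1)`. -/
noncomputable def u (z : ℝ) : ℝ := Real.sqrt (z ^ 2 - 1)

/-- The functions fixed by the even step at `l = 2`. -/
noncomputable def Np (p z : ℝ) : ℝ := p * z + (1 - p) * u z

theorem u_one : u 1 = 0 := by simp [u]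

theorem u_le {z : ℝ} (hz : 1 ≤ z) : u z ≤ z := by
  unfold u
  rw [Real.sqrt_le_left (by linarith)]
  linarith

theorem le_u {z : ℝ} (hz : 1 ≤ z) : z - 1 / z ≤ u z := by
  unfold u
  apply Real.le_sqrt_of_sq_le
  have h1 : 1 / z ≤ 1 := by rw [div_le_one (by linarith)]; exact hz
  have h0 : 0 ≤ 1 / z := by positivity
  have : (z - 1 / z) ^ 2 = z ^ 2 - 2 + (1 / z) ^ 2 := by field_simp; ring
  rw [this]
  nlinarith

theorem Np_one (p : ℝ) : Np p 1 = p := by simp [Np, u_one]

theorem Np_at_one (z : ℝ) : Np 1 z = z := by simp [Np]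

theorem Np_zero (z : ℝ) : Np 0 z = u z := by simp [Np]

theorem cl_Np {p : ℝ} (h0 : 0 ≤ p) (h1 : p ≤ 1) : Cl (Np p) := by
  intro z hz
  have a1 := u_le hz
  have a2 := le_u hz
  have a3 : 0 ≤ 1 / z := by positivity
  unfold Np
  constructor <;> nlinarith

end Pool.Agent.Helper919.CE
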