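import Pool.Agent.Helper919.CE.OP

set_option autoImplicit false

open MeasureTheory Filter Topology Polynomial

namespace Pool.Agent.Helper919.CE

/-- The half period. -/
noncomputable def half : UnitAddCircle := ((1 / 2 : ℝ) : UnitAddCircle)

open Classical in
/-- An antiperiodic sign. -/
noncomputable def sg (θ : UnitAddCircle) : ℝ :=
  if (0 < (AddCircle.toCircle θ : ℂ).im ∨
    ((AddCircle.toCircle θ : ℂ).im = 0 ∧ 0 < (AddCircle.toCircle θ : ℂ).re)) then 1 else -1

theorem toCircle_half : ((AddCircle.toCircle half : Circle) : ℂ) = -1 := by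
  unfold half
  rw [AddCircle.toCircle_apply_mk, Circle.coe_exp]
  have : ((2 * Real.pi / 1 * (1 / 2) : ℝ) : ℂ) * Complex.I = (Real.pi : ℂ) * Complex.I := by
    push_cast; ring
  rw [this, Complex.exp_pi_mul_I]

theorem toCircle_add_half (θ : UnitAddCircle) :
    ((AddCircle.toCircle (θ + half) : Circle) : ℂ) = -(AddCircle.toCircle θ : ℂ) := by
  rw [AddCircle.toCircle_add, Circle.coe_mul, toCircle_half]; ring

theorem sg_add_half (θ : UnitAddCircle) : sg (θ + half) = - sg θ := by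
  unfold sg
  rw [toCircle_add_half]
  have hn : (AddCircle.toCircle θ : ℂ) ≠ 0 := Circle.coe_ne_zero _
  generalize (AddCircle.toCircle θ : ℂ) = w at hn
  simp only [Complex.neg_im, Complex.neg_re]
  rcases lt_trichotomy w.im 0 with h | h | h
  · rw [if_pos (Or.inl (by linarith)), if_neg]
    · ring
    · rintro (h' | ⟨h', _⟩) <;> linarith
  · have hre : w.re ≠ 0 := by
      intro h2
      exact hn (Complex.ext h2 h)
    rcases lt_or_gt_of_ne hre with h2 | h2
    · rw [if_pos (Or.inr ⟨by linarith, by linarith⟩), if_neg]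
      · ring
      · rintro (h' | ⟨_, h'⟩) <;> linarith
    · rw [if_neg, if_pos (Or.inr ⟨h, h2⟩)]
      rintro (h' | ⟨_, h'⟩) <;> linarith
  · rw [if_neg, if_pos (Or.inl h)]
    rintro (h' | ⟨h', _⟩) <;> linarith

theorem sg_cases (θ : UnitAddCircle) : sg θ = 1 ∨ sg θ = -1 := by
  unfold sg; split_ifs <;> simp

theorem continuous_tc : Continuous fun θ : UnitAddCircle => (AddCircle.toCircle θ : ℂ) :=
  continuous_subtype_val.comp AddCircle.continuous_toCircle

theorem measurable_sg : Measurable sg := by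
  unfold sg
  have h1 : Measurable fun θ : UnitAddCircle => (AddCircle.toCircle θ : ℂ).im :=
    (Complex.continuous_im.comp continuous_tc).measurable
  have h2 : Measurable fun θ : UnitAddCircle => (AddCircle.toCircle θ : ℂ).re :=
    (Complex.continuous_re.comp continuous_tc).measurable
  apply Measurable.ite _ measurable_const measurable_const
  apply MeasurableSet.union
  · exact measurableSet_lt measurable_const h1
  · exact (h1 (measurableSet_singleton 0)).inter (measurableSet_lt measurable_const h2)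

theorem two_half (θ : UnitAddCircle) : (2:ℕ) • (θ + half) = (2:ℕ) • θ := by
  rw [smul_add]
  have : (2:ℕ) • half = 0 := by
    unfold half
    rw [← AddCircle.coe_nsmul]
    have : (2:ℕ) • (1 / 2 : ℝ) = 1 := by norm_num
    rw [this]
    exact AddCircle.coe_period 1
  rw [this, add_zero]

theorem mp_dbl : MeasurePreserving (fun θ : UnitAddCircle => (2:ℕ) • θ) volume volume :=
  (AddCircle.ergodic_nsmul (T := 1) (by norm_num : 1 < 2)).toMeasurePreserving

theorem mp_half : MeasurePreserving (fun θ : UnitAddCircle => θ + half) volume volume :=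
  measurePreserving_add_right _ _

/-- The inverse branch. -/
noncomputable def br (l v : ℝ) : ℝ := Real.sqrt ((v + (l - 1)) / l)

theorem br_nonneg (l v : ℝ) : 0 ≤ br l v := Real.sqrt_nonneg _

theorem br_sq {l v : ℝ} (hl : 2 ≤ l) (hv : -1 ≤ v) : br l v ^ 2 = (v + (l - 1)) / l :=
  Real.sq_sqrt (div_nonneg (by linarith) (by linarith))

theorem br_le {l v : ℝ} (hl : 2 ≤ l) (hv : v ≤ 1) : br l v ≤ 1 := by
  unfold br
  rw [Real.sqrt_le_one, div_le_one (by linarith)]
  linarith

theorem fq_br {l v : ℝ} (hl : 2 ≤ l) (hv : -1 ≤ v) : fq l (br l v) = v := by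
  unfold fq
  rw [br_sq hl hv]
  field_simp
  ring

/-- Contraction of the inverse branch in the angular metric. -/
theorem br_contr {l v w : ℝ} (hl : 2 ≤ l) (hv1 : -1 ≤ v) (hvw : v ≤ w) (hw1 : w ≤ 1) :
    Real.arccos (br l v) - Real.arccos (br l w) ≤ (Real.arccos v - Real.arccos w) / 2 := by
  have hv2 : v ≤ 1 := hvw.trans hw1
  have hw0 : -1 ≤ w := hv1.trans hvw
  set a1 := Real.arccos v / 2 with ha1
  set a2 := Real.arccos w / 2 with ha2
  set p1 := Real.arccos (br l v) with hp1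
  set p2 := Real.arccos (br l w) with hp2
  set k := Real.sqrt (2 / l) with hk
  have hk0 : 0 ≤ k := Real.sqrt_nonneg _
  have hk2 : k ^ 2 = 2 / l := Real.sq_sqrt (by positivity)
  have hk1 : k ^ 2 ≤ 1 := by rw [hk2, div_le_one (by linarith)]; exact hl
  have ra1 : 0 ≤ a1 ∧ a1 ≤ Real.pi / 2 :=
    ⟨by have := Real.arccos_nonneg v; linarith, by have := Real.arccos_le_pi v; linarith⟩
  have ra2 : 0 ≤ a2 ∧ a2 ≤ Real.pi / 2 :=
    ⟨by have := Real.arccos_nonneg w; linarith, by have := Real.arccos_le_pi w; linarith⟩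
  have h12 : a2 ≤ a1 := by
    have := Real.arccos_le_arccos hvw
    linarith
  have rp1 : 0 ≤ p1 ∧ p1 ≤ Real.pi / 2 := ⟨Real.arccos_nonneg _, Real.arccos_le_pi_div_two.2 (br_nonneg _ _)⟩
  have rp2 : 0 ≤ p2 ∧ p2 ≤ Real.pi / 2 := ⟨Real.arccos_nonneg _, Real.arccos_le_pi_div_two.2 (br_nonneg _ _)⟩
  have sin_eq : ∀ {x a p : ℝ}, -1 ≤ x → x ≤ 1 → a = Real.arccos x / 2 → p = Real.arccos (br l x) →
      0 ≤ a → a ≤ Real.pi / 2 → 0 ≤ p → p ≤ Real.pi / 2 → Real.sin p = k * Real.sin a := by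
    intro x a p hx1 hx2 ha hp a0 a1 p0 p1
    have c1 : Real.cos (2 * a) = x := by
      rw [ha, mul_div_cancel₀ _ two_ne_zero, Real.cos_arccos hx1 hx2]
    have c2 : Real.cos p = br l x := by
      rw [hp, Real.cos_arccos (by linarith [br_nonneg l x]) (br_le hl hx2)]
    have s1 : Real.sin a ^ 2 = (1 - x) / 2 := by
      have := Real.cos_two_mul a
      have h3 := Real.sin_sq_add_cos_sq a
      rw [c1] at this
      linarith
    have s2 : Real.sin p ^ 2 = (k * Real.sin a) ^ 2 := by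
      have h3 := Real.sin_sq_add_cos_sq p
      rw [c2, br_sq hl hx1] at h3
      rw [mul_pow, hk2, s1]
      have : Real.sin p ^ 2 = 1 - (x + (l - 1)) / l := by linarith
      rw [this]
      field_simp
      ring
    have n1 : 0 ≤ Real.sin p := Real.sin_nonneg_of_nonneg_of_le_pi p0 (by linarith [Real.pi_pos])
    have n2 : 0 ≤ k * Real.sin a :=
      mul_nonneg hk0 (Real.sin_nonneg_of_nonneg_of_le_pi a0 (by linarith [Real.pi_pos]))
    exact (sq_eq_sq₀ n1 n2).1 s2
  have e1 := sin_eq hv1 hv2 ha1 hp1 ra1.1 ra1.2 rp1.1 rp1.2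
  have e2 := sin_eq hw0 hw1 ha2 hp2 ra2.1 ra2.2 rp2.1 rp2.2
  have sa2 : 0 ≤ Real.sin a2 := Real.sin_nonneg_of_nonneg_of_le_pi ra2.1 (by linarith [Real.pi_pos])
  have ca2 : 0 ≤ Real.cos a2 := Real.cos_nonneg_of_neg_pi_div_two_le_of_le (by linarith [Real.pi_pos]) ra2.2
  have cp2 : 0 ≤ Real.cos p2 := Real.cos_nonneg_of_neg_pi_div_two_le_of_le (by linarith [Real.pi_pos]) rp2.2
  have hp2a2 : p2 ≤ a2 := by
    have hk1' : k ≤ 1 := by nlinarith
    have : Real.sin p2 ≤ Real.sin a2 := by rw [e2]; nlinarith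
    exact (Real.strictMonoOn_sin.le_iff_le ⟨by linarith [Real.pi_pos], rp2.2⟩
      ⟨by linarith [Real.pi_pos], ra2.2⟩).1 this
  have hcos : k * Real.cos a2 ≤ Real.cos p2 := by
    have h1 := Real.sin_sq_add_cos_sq p2
    have h2 := Real.sin_sq_add_cos_sq a2
    rw [e2] at h1
    refine abs_le_of_sq_le_sq' ?_ cp2 |>.2
    nlinarith
  set d := a1 - a2 with hd
  have hd0 : 0 ≤ d := by linarith
  have hd1 : d ≤ Real.pi / 2 := by linarith [ra1.2, ra2.1]
  have sd : 0 ≤ Real.sin d := Real.sin_nonneg_of_nonneg_of_le_pi hd0 (by linarith [Real.pi_pos])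
  have key : Real.sin p1 ≤ Real.sin (p2 + d) := by
    rw [e1, Real.sin_add]
    have : a1 = a2 + d := by rw [hd]; ring
    rw [this, Real.sin_add, e2]
    nlinarith
  have : p1 ≤ p2 + d := (Real.strictMonoOn_sin.le_iff_le ⟨by linarith [Real.pi_pos], rp1.2⟩
      ⟨by linarith [Real.pi_pos], by linarith⟩).1 key
  linarith

theorem br_contr' {l v w : ℝ} (hl : 2 ≤ l) (hv1 : -1 ≤ v) (hv2 : v ≤ 1) (hw1 : -1 ≤ w) (hw2 : w ≤ 1) :
    |Real.arccos (br l v) - Real.arccos (br l w)| ≤ |Real.arccos v - Real.arccos w| / 2 := by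
  rcases le_total v w with h | h
  · have h1 := br_contr hl hv1 h hw2
    have h2 : Real.arccos w ≤ Real.arccos v := Real.arccos_le_arccos h
    have h3 : Real.arccos (br l w) ≤ Real.arccos (br l v) := by
      apply Real.arccos_le_arccos
      unfold br
      apply Real.sqrt_le_sqrt
      apply div_le_div_of_nonneg_right _ (by linarith)
      linarith
    rw [abs_of_nonneg (by linarith), abs_of_nonneg (by linarith)]
    exact h1
  · have h1 := br_contr hl hw1 h hv2
    have h2 : Real.arccos v ≤ Real.arccos w := Real.arccos_le_arccos h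
    have h3 : Real.arccos (br l v) ≤ Real.arccos (br l w) := by
      apply Real.arccos_le_arccos
      unfold br
      apply Real.sqrt_le_sqrt
      apply div_le_div_of_nonneg_right _ (by linarith)
      linarith
    rw [abs_of_nonpos (by linarith), abs_of_nonpos (by linarith)]
    linarith

/-- top function: uniform law on `[-1,1]` -/
noncomputable def q0 (θ : UnitAddCircle) : ℝ := 2 * ((AddCircle.measurableEquivIoc 1 0 θ : Set.Ioc (0:ℝ) (0 + 1)) : ℝ) - 1

theorem q0_mem (θ : UnitAddCircle) : |q0 θ| ≤ 1 := by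
  unfold q0
  have h := (AddCircle.measurableEquivIoc 1 0 θ).2
  simp only [Set.mem_Ioc] at h
  rw [abs_le]
  constructor <;> linarith [h.1, h.2]

theorem measurable_q0 : Measurable q0 := by
  unfold q0
  have h : Measurable (fun θ : UnitAddCircle =>
      ((AddCircle.measurableEquivIoc 1 0 θ : Set.Ioc (0:ℝ) (0 + 1)) : ℝ)) :=
    measurable_subtype_coe.comp (AddCircle.measurableEquivIoc 1 0).measurable
  exact (h.const_mul 2).sub_const 1

/-- approximations of the coding map -/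
noncomputable def QJ : ℕ → (ℕ → ℝ) → UnitAddCircle → ℝ
  | 0, _, θ => q0 θ
  | (J + 1), lam, θ => sg θ * br (lam 0) (QJ J (sh lam) ((2:ℕ) • θ))

theorem abs_sg_mul (θ : UnitAddCircle) (x : ℝ) : |sg θ * x| = |x| := by
  rcases sg_cases θ with h | h <;> simp [h]

theorem QJ_mem (J : ℕ) : ∀ {lam : ℕ → ℝ}, (∀ k, 2 ≤ lam k) → ∀ θ, |QJ J lam θ| ≤ 1 := by
  induction J with
  | zero => intro lam _ θ; exact q0_mem θ
  | succ J ih =>
    intro lam h θ
    rw [QJ, abs_sg_mul, abs_of_nonneg (br_nonneg _ _)]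
    exact br_le (h 0) (abs_le.1 (ih (lam := sh lam) (fun k => h (k + 1)) _)).2

theorem measurable_QJ (J : ℕ) : ∀ {lam : ℕ → ℝ}, Measurable (QJ J lam) := by
  induction J with
  | zero => intro lam; exact measurable_q0
  | succ J ih =>
    intro lam
    have h1 : Measurable fun θ : UnitAddCircle => QJ J (sh lam) ((2:ℕ) • θ) :=
      ih.comp mp_dbl.measurable
    have h2 : Measurable fun θ : UnitAddCircle => br (lam 0) (QJ J (sh lam) ((2:ℕ) • θ)) := by
      unfold br
      exact Real.continuous_sqrt.measurable.comp ((h1.add_const _).div_const _)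
    exact measurable_sg.mul h2

theorem arccos_sg (θ : UnitAddCircle) (x y : ℝ) :
    |Real.arccos (sg θ * x) - Real.arccos (sg θ * y)| = |Real.arccos x - Real.arccos y| := by
  rcases sg_cases θ with h | h
  · simp [h]
  · rw [h, neg_one_mul, neg_one_mul, Real.arccos_neg, Real.arccos_neg, abs_sub_comm]
    congr 1; ring

theorem QJ_step (J : ℕ) : ∀ {lam : ℕ → ℝ}, (∀ k, 2 ≤ lam k) → ∀ θ,
    |Real.arccos (QJ (J + 1) lam θ) - Real.arccos (QJ J lam θ)| ≤ Real.pi / 2 ^ J := by
  induction J with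
  | zero =>
    intro lam _ θ
    rw [pow_zero, div_one, abs_le]
    have h1 := Real.arccos_nonneg (QJ (0 + 1) lam θ)
    have h2 := Real.arccos_le_pi (QJ (0 + 1) lam θ)
    have h3 := Real.arccos_nonneg (QJ 0 lam θ)
    have h4 := Real.arccos_le_pi (QJ 0 lam θ)
    constructor <;> linarith
  | succ J ih =>
    intro lam h θ
    have hl' : ∀ k, 2 ≤ sh lam k := fun k => h (k + 1)
    have e1 : QJ (J + 1 + 1) lam θ = sg θ * br (lam 0) (QJ (J + 1) (sh lam) ((2:ℕ) • θ)) := rfl
    have e2 : QJ (J + 1) lam θ = sg θ * br (lam 0) (QJ J (sh lam) ((2:ℕ) • θ)) := rfl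
    rw [e1, e2, arccos_sg]
    have m1 := abs_le.1 (QJ_mem (J + 1) hl' ((2:ℕ) • θ))
    have m2 := abs_le.1 (QJ_mem J hl' ((2:ℕ) • θ))
    refine (br_contr' (h 0) m1.1 m1.2 m2.1 m2.2).trans ?_
    have := ih hl' ((2:ℕ) • θ)
    rw [pow_succ, ← div_div]
    linarith

theorem QJ_dist {J : ℕ} {lam : ℕ → ℝ} (h : ∀ k, 2 ≤ lam k) (θ : UnitAddCircle) :
    dist (QJ J lam θ) (QJ (J + 1) lam θ) ≤ Real.pi / 2 ^ J := by
  have m1 := abs_le.1 (QJ_mem (J + 1) h θ)
  have m2 := abs_le.1 (QJ_mem J h θ)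
  rw [dist_comm, Real.dist_eq]
  refine le_trans ?_ (QJ_step J h θ)
  have e1 := Real.cos_arccos m1.1 m1.2
  have e2 := Real.cos_arccos m2.1 m2.2
  conv_lhs => rw [← e1, ← e2]
  exact Real.abs_cos_sub_cos_le _ _

theorem QJ_cauchy {lam : ℕ → ℝ} (h : ∀ k, 2 ≤ lam k) (θ : UnitAddCircle) :
    CauchySeq fun J => QJ J lam θ := by
  apply cauchySeq_of_le_geometric (1 / 2) Real.pi (by norm_num)
  intro J
  have := QJ_dist (J := J) h θ
  rw [one_div, inv_pow, ← div_eq_mul_inv]
  exact this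

/-- The coding map. -/
noncomputable def Q (lam : ℕ → ℝ) (θ : UnitAddCircle) : ℝ := limUnder atTop fun J => QJ J lam θ

theorem Q_tendsto {lam : ℕ → ℝ} (h : ∀ k, 2 ≤ lam k) (θ : UnitAddCircle) :
    Tendsto (fun J => QJ J lam θ) atTop (𝓝 (Q lam θ)) :=
  (QJ_cauchy h θ).tendsto_limUnder

theorem Q_mem {lam : ℕ → ℝ} (h : ∀ k, 2 ≤ lam k) (θ : UnitAddCircle) : |Q lam θ| ≤ 1 :=
  le_of_tendsto' (Q_tendsto h θ).abs fun J => QJ_mem J h θ

theorem measurable_Q {lam : ℕ → ℝ} (h : ∀ k, 2 ≤ lam k) : Measurable (Q lam) :=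
  measurable_of_tendsto_metrizable (fun J => measurable_QJ J)
    (tendsto_pi_nhds.2 fun θ => Q_tendsto h θ)

theorem Q_eq {lam : ℕ → ℝ} (h : ∀ k, 2 ≤ lam k) (θ : UnitAddCircle) :
    Q lam θ = sg θ * br (lam 0) (Q (sh lam) ((2:ℕ) • θ)) := by
  have hl' : ∀ k, 2 ≤ sh lam k := fun k => h (k + 1)
  have h1 := (Q_tendsto h θ).comp (tendsto_add_atTop_nat 1)
  have h2 : Tendsto (fun J => sg θ * br (lam 0) (QJ J (sh lam) ((2:ℕ) • θ))) atTop
      (𝓝 (sg θ * br (lam 0) (Q (sh lam) ((2:ℕ) • θ)))) := by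
    apply Tendsto.const_mul
    unfold br
    exact (Real.continuous_sqrt.tendsto _).comp
      (((Q_tendsto hl' _).add_const _).div_const _)
  exact tendsto_nhds_unique h1 h2

theorem fq_sg (θ : UnitAddCircle) (l x : ℝ) : fq l (sg θ * x) = fq l x := by
  unfold fq
  rcases sg_cases θ with h | h <;> rw [h] <;> ring

theorem fq_Q {lam : ℕ → ℝ} (h : ∀ k, 2 ≤ lam k) (θ : UnitAddCircle) :
    fq (lam 0) (Q lam θ) = Q (sh lam) ((2:ℕ) • θ) := by
  have hl' : ∀ k, 2 ≤ sh lam k := fun k => h (k + 1)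
  rw [Q_eq h, fq_sg, fq_br (h 0) (abs_le.1 (Q_mem hl' _)).1]

theorem fq_QJ {J : ℕ} {lam : ℕ → ℝ} (h : ∀ k, 2 ≤ lam k) (θ : UnitAddCircle) :
    fq (lam 0) (QJ (J + 1) lam θ) = QJ J (sh lam) ((2:ℕ) • θ) := by
  have hl' : ∀ k, 2 ≤ sh lam k := fun k => h (k + 1)
  rw [QJ, fq_sg, fq_br (h 0) (abs_le.1 (QJ_mem J hl' _)).1]

theorem Q_half {lam : ℕ → ℝ} (h : ∀ k, 2 ≤ lam k) (θ : UnitAddCircle) :
    Q lam (θ + half) = - Q lam θ := by
  rw [Q_eq h, Q_eq h, two_half, sg_add_half]; ring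

theorem QJ_half {J : ℕ} {lam : ℕ → ℝ} (θ : UnitAddCircle) :
    QJ (J + 1) lam (θ + half) = - QJ (J + 1) lam θ := by
  rw [QJ, QJ, two_half, sg_add_half]; ring

theorem integrable_poly {lam : ℕ → ℝ} (h : ∀ k, 2 ≤ lam k) (g : ℝ[X]) :
    Integrable (fun θ => g.eval (Q lam θ)) (volume : Measure UnitAddCircle) := by
  obtain ⟨C, hC⟩ : ∃ C, ∀ x ∈ Set.Icc (-1:ℝ) 1, ‖g.eval x‖ ≤ C :=
    (isCompact_Icc).exists_bound_of_continuousOn g.continuous.continuousOn
  refine Integrable.mono' (integrable_const C) ?_ (Eventually.of_forall fun θ => hC _ (abs_le.1 (Q_mem h θ)))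
  exact (g.continuous.measurable.comp (measurable_Q h)).aestronglyMeasurable

open Classical in
/-- The integration functional. -/
noncomputable def Lf (lam : ℕ → ℝ) : ℝ[X] →ₗ[ℝ] ℝ :=
  if h : ∀ k, 2 ≤ lam k then
    { toFun := fun g => ∫ θ : UnitAddCircle, g.eval (Q lam θ)
      map_add' := by
        intro p q
        simp only [eval_add]
        exact integral_add (integrable_poly h p) (integrable_poly h q)
      map_smul' := by
        intro c p
        simp only [eval_smul, smul_eq_mul, RingHom.id_apply]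
        exact integral_const_mul _ _ }
  else 0

theorem Lf_apply {lam : ℕ → ℝ} (h : ∀ k, 2 ≤ lam k) (g : ℝ[X]) :
    Lf lam g = ∫ θ : UnitAddCircle, g.eval (Q lam θ) := by
  unfold Lf; rw [dif_pos h]; rfl

theorem eval_fp (l x : ℝ) : (fp l).eval x = fq l x := by
  unfold fp fq; simp

theorem Lf_comp (lam : ℕ → ℝ) (g : ℝ[X]) (h : ∀ k, 2 < lam k) :
    Lf lam (g.comp (fp (lam 0))) = Lf (sh lam) g := by
  have h1 : ∀ k, 2 ≤ lam k := fun k => (h k).le
  have h2 : ∀ k, 2 ≤ sh lam k := fun k => (h (k + 1)).le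
  rw [Lf_apply h1, Lf_apply h2]
  simp only [eval_comp, eval_fp, fq_Q h1]
  have hm : Measurable fun θ : UnitAddCircle => g.eval (Q (sh lam) θ) :=
    g.continuous.measurable.comp (measurable_Q h2)
  have := integral_map (μ := (volume : Measure UnitAddCircle)) mp_dbl.measurable.aemeasurable
    (f := fun θ : UnitAddCircle => g.eval (Q (sh lam) θ)) (by
      exact hm.aestronglyMeasurable)
  rw [mp_dbl.map_eq] at this
  exact this.symm

theorem Lf_odd (lam : ℕ → ℝ) (g : ℝ[X]) (h : ∀ k, 2 < lam k) (hg : g.comp (-X) = -g) :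
    Lf lam g = 0 := by
  have h1 : ∀ k, 2 ≤ lam k := fun k => (h k).le
  have hm : Measurable fun θ : UnitAddCircle => g.eval (Q lam θ) :=
    g.continuous.measurable.comp (measurable_Q h1)
  have := integral_map (μ := (volume : Measure UnitAddCircle)) mp_half.measurable.aemeasurable
    (f := fun θ : UnitAddCircle => g.eval (Q lam θ)) (by exact hm.aestronglyMeasurable)
  rw [mp_half.map_eq] at this
  simp only [Q_half h1] at this
  have e : ∀ x : ℝ, g.eval (-x) = - g.eval x := by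
    intro x
    have := congrArg (fun p => p.eval x) hg
    simpa [eval_comp] using this
  simp only [e] at this
  rw [integral_neg] at this
  rw [Lf_apply h1]
  linarith

theorem Lf_one (lam : ℕ → ℝ) (h : ∀ k, 2 < lam k) : Lf lam 1 = 1 := by
  rw [Lf_apply fun k => (h k).le]
  simp only [eval_one]
  rw [integral_const]
  simp [Measure.real]

theorem orth_Q {lam : ℕ → ℝ} (h : ∀ k, 2 < lam k) (n m : ℕ) :
    ∫ θ : UnitAddCircle, (P lam n).eval (Q lam θ) * (P lam m).eval (Q lam θ) =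
      if n = m then hn lam n else 0 := by
  have := orth Lf Lf_comp Lf_odd Lf_one (n + m) n m le_rfl h
  rw [Lf_apply fun k => (h k).le] at this
  simpa only [eval_mul] using this

end Pool.Agent.Helper919.CE
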