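import Pool.Agent.Helper919.CE.Seq

set_option autoImplicit false

open Filter Topology

namespace Pool.Agent.Helper919.CE

/-- Invariant of the construction. -/
def Good (t : List (Bool × ℝ)) : Prop :=
  (∀ q ∈ t, 2 < q.2 ∧ q.2 ≤ 8 / 3) ∧ Y t (Np 0) < 4 / 5 ∧ 9 / 10 < Y t (Np (1 / 2))

theorem u_54 : u (5 / 4) = 3 / 4 := by
  unfold u
  rw [show ((5:ℝ) / 4) ^ 2 - 1 = (3 / 4) ^ 2 by norm_num, Real.sqrt_sq (by norm_num)]

theorem good_nil : Good [] := by
  refine ⟨by simp, ?_, ?_⟩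
  · simp only [Y, comp, Np_zero, u_54]; norm_num
  · simp only [Y, comp, Np, u_54]; norm_num

theorem step' (t : {t // Good t}) : ∃ p : List (Bool × ℝ) × List (Bool × ℝ),
    Good (t.1 ++ p.1) ∧ p.2.map Prod.snd = p.1.map Prod.snd ∧ p.1.getLast? = some (true, 8 / 3) ∧
      p.2.getLast? = some (true, 8 / 3) ∧
      9 / 10 < Y (t.1 ++ p.1) (Np 1) ∧ Y (t.1 ++ p.2) (Np 1) < 4 / 5 := by
  obtain ⟨s, s', h1, h2, h3, h4, h5, h6, h7, h8⟩ :=
    step t.1 (fun q hq => (t.2.1 q hq).1) t.2.2.1 t.2.2.2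
  refine ⟨(s, s'), ⟨?_, h5, h6⟩, h2, h3, h4, h7, h8⟩
  intro q hq
  rcases List.mem_append.1 hq with hq | hq
  · exact t.2.1 q hq
  · exact h1 q hq

noncomputable def ext (t : {t // Good t}) : List (Bool × ℝ) := (step' t).choose.1
noncomputable def alt (t : {t // Good t}) : List (Bool × ℝ) := (step' t).choose.2

theorem ext_spec (t : {t // Good t}) : Good (t.1 ++ ext t) ∧
    (alt t).map Prod.snd = (ext t).map Prod.snd ∧ (ext t).getLast? = some (true, 8 / 3) ∧
      (alt t).getLast? = some (true, 8 / 3) ∧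
      9 / 10 < Y (t.1 ++ ext t) (Np 1) ∧ Y (t.1 ++ alt t) (Np 1) < 4 / 5 :=
  (step' t).choose_spec

noncomputable def nxt (t : {t // Good t}) : {t // Good t} := ⟨t.1 ++ ext t, (ext_spec t).1⟩

noncomputable def LL : ℕ → {t // Good t}
  | 0 => ⟨[], good_nil⟩
  | (n + 1) => nxt (LL n)

theorem LL_succ (n : ℕ) : (LL (n + 1)).1 = (LL n).1 ++ ext (LL n) := rfl

theorem ext_ne (t : {t // Good t}) : ext t ≠ [] := by
  intro h
  have := (ext_spec t).2.2.1
  rw [h] at this
  simp at this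

theorem LL_len (n : ℕ) : n ≤ (LL n).1.length := by
  induction n with
  | zero => exact Nat.zero_le _
  | succ n ih =>
    rw [LL_succ, List.length_append]
    have := List.length_pos_iff.2 (ext_ne (LL n))
    omega

theorem LL_init {m n : ℕ} (h : m ≤ n) : ∃ s, (LL n).1 = (LL m).1 ++ s := by
  induction n, h using Nat.le_induction with
  | base => exact ⟨[], by simp⟩
  | succ n _ ih =>
    obtain ⟨s, hs⟩ := ih
    exact ⟨s ++ ext (LL n), by rw [LL_succ, hs, List.append_assoc]⟩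

noncomputable def ent (k : ℕ) : Bool × ℝ := (LL (k + 1)).1.getD k (false, 9 / 4)

theorem getD_append_left {α : Type*} (s t : List α) (d : α) (k : ℕ) (h : k < s.length) :
    (s ++ t).getD k d = s.getD k d := by
  simp [List.getD, List.getElem?_append_left h]

theorem LL_getD (n k : ℕ) (h : k < (LL n).1.length) : (LL n).1.getD k (false, 9 / 4) = ent k := by
  unfold ent
  rcases le_total n (k + 1) with hle | hle
  · obtain ⟨s, hs⟩ := LL_init hle
    rw [hs, getD_append_left _ _ _ _ h]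
  · obtain ⟨s, hs⟩ := LL_init hle
    have hk : k < (LL (k + 1)).1.length := by have := LL_len (k + 1); omega
    rw [hs, getD_append_left _ _ _ _ hk]

/-- The parameter sequence. -/
noncomputable def lam : ℕ → ℝ
  | 0 => 9 / 4
  | (k + 1) => (ent k).2

theorem lam_zero : lam 0 = 9 / 4 := rfl

theorem sh_lam (k : ℕ) : sh lam k = (ent k).2 := rfl

theorem lam_mem (k : ℕ) : 2 < lam k ∧ lam k ≤ 8 / 3 := by
  cases k with
  | zero => rw [lam_zero]; norm_num
  | succ k =>
    change 2 < (ent k).2 ∧ (ent k).2 ≤ 8 / 3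
    have hk : k < (LL (k + 1)).1.length := by have := LL_len (k + 1); omega
    apply (LL (k + 1)).2.1
    unfold ent
    rw [List.getD_eq_getElem _ _ hk]
    exact List.getElem_mem hk

/-- number with given digits -/
def nm : List (Bool × ℝ) → ℕ
  | [] => 0
  | (q :: t) => Nat.bit q.1 (nm t)

theorem nm_lt (t : List (Bool × ℝ)) : nm t < 2 ^ t.length := by
  induction t with
  | nil => simp [nm]
  | cons q t ih =>
    rw [nm, List.length_cons, pow_succ]
    cases q.1 <;> simp [Nat.bit] <;> omega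

theorem nm_append (s t : List (Bool × ℝ)) : nm (s ++ t) = nm s + 2 ^ s.length * nm t := by
  induction s with
  | nil => simp [nm]
  | cons q s ih =>
    rw [List.cons_append, nm, nm, ih, List.length_cons, pow_succ]
    cases q.1
    · simp only [Nat.bit_false]; ring
    · simp only [Nat.bit_true]; ring

theorem dl_nm (t : List (Bool × ℝ)) : ∀ (l : ℕ → ℝ), (∀ k, k < t.length → (t.map Prod.snd).getD k 0 = l k) →
    dl t.length (nm t) l = t := by
  induction t with
  | nil => intro l _; rfl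
  | cons q t ih =>
    intro l h
    rw [List.length_cons, dl, nm, Nat.bodd_bit]
    have e1 : Nat.bit q.1 (nm t) / 2 = nm t := Nat.bit_div_two _ _
    rw [e1, ih (sh l)]
    · have := h 0 (by simp)
      simp at this
      rw [← this]
    · intro k hk
      have := h (k + 1) (by simpa using hk)
      simpa [sh] using this

theorem Np_one_eq : Np 1 = fun z => z := by funext z; exact Np_at_one z

theorem yv_nm (t : List (Bool × ℝ)) (h : ∀ k, k < t.length → (t.map Prod.snd).getD k 0 = sh lam k) :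
    yv lam (2 * nm t + 1) = Y t (Np 1) / (9 / 4) := by
  have hl' : ∀ k, 2 < sh lam k := fun k => (lam_mem (k + 1)).1
  have e := Nf_dl (h := t.length) (K := 0) hl' (nm_lt t)
  rw [mul_zero, add_zero, Nf_zero, dl_nm t _ h] at e
  unfold yv
  have e1 : (2 * nm t + 1).bodd = true := by simp
  have e2 : (2 * nm t + 1) / 2 = nm t := by omega
  rw [e1, e2, if_pos rfl, e, lam_zero, Np_one_eq, Y]
  norm_num

theorem LL_snd (n k : ℕ) (h : k < (LL n).1.length) :
    ((LL n).1.map Prod.snd).getD k 0 = sh lam k := by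
  rw [sh_lam, ← LL_getD n k h]
  rw [List.getD_eq_getElem _ _ h, List.getD_eq_getElem _ _ (by simpa using h), List.getElem_map]

noncomputable def nB (R : ℕ) : ℕ := 2 * nm (LL (R + 1)).1
noncomputable def nA (R : ℕ) : ℕ := 2 * nm ((LL R).1 ++ alt (LL R))

theorem yB (R : ℕ) : 2 / 5 < yv lam (nB R + 1) := by
  rw [nB, yv_nm _ (fun k hk => LL_snd (R + 1) k hk), lt_div_iff₀ (by norm_num)]
  have := (ext_spec (LL R)).2.2.2.2.1
  rw [LL_succ]
  linarith

theorem yA (R : ℕ) : yv lam (nA R + 1) < 16 / 45 := by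
  have hs := ext_spec (LL R)
  have hmap : ((LL R).1 ++ alt (LL R)).map Prod.snd = (LL (R + 1)).1.map Prod.snd := by
    rw [LL_succ, List.map_append, List.map_append, hs.2.1]
  have hlen : ((LL R).1 ++ alt (LL R)).length = (LL (R + 1)).1.length := by
    have := congrArg List.length hmap
    simpa using this
  rw [nA, yv_nm, div_lt_iff₀ (by norm_num)]
  · have := hs.2.2.2.2.2
    linarith
  · intro k hk
    rw [hmap]
    exact LL_snd (R + 1) k (by omega)

theorem nm_ge {t : List (Bool × ℝ)} (h : t.getLast? = some (true, 8 / 3)) : t.length ≤ nm t + 1 := by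
  obtain ⟨s, rfl⟩ : ∃ s, t = s ++ [(true, 8 / 3)] := by
    rw [List.getLast?_eq_some_iff] at h
    exact h
  rw [nm_append, List.length_append]
  have : s.length < 2 ^ s.length := Nat.lt_two_pow_self
  simp [nm]
  omega

theorem nB_ge (R : ℕ) : R ≤ nB R := by
  have h1 : (LL (R + 1)).1.getLast? = some (true, 8 / 3) := by
    rw [LL_succ, List.getLast?_append, (ext_spec (LL R)).2.2.1]; rfl
  have h2 := nm_ge h1
  have h3 := LL_len (R + 1)
  unfold nB
  omega

theorem nA_ge (R : ℕ) : R ≤ nA R := by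
  have h1 : ((LL R).1 ++ alt (LL R)).getLast? = some (true, 8 / 3) := by
    rw [List.getLast?_append, (ext_spec (LL R)).2.2.2.1]; rfl
  have h2 := nm_ge h1
  have h3 : R + 1 ≤ ((LL R).1 ++ alt (LL R)).length := by
    have hne : alt (LL R) ≠ [] := by
      intro h
      have := (ext_spec (LL R)).2.2.2.1
      rw [h] at this
      simp at this
    have := LL_len R
    have := List.length_pos_iff.2 hne
    rw [List.length_append]
    omega
  unfold nA
  omega

theorem lam_inf (n : ℕ) : ∃ k, n ≤ k ∧ lam k = 8 / 3 := by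
  have hs := (ext_spec (LL n)).2.2.1
  have h1 : (LL (n + 1)).1.getLast? = some (true, 8 / 3) := by
    rw [LL_succ, List.getLast?_append, hs]; rfl
  have hlen := LL_len (n + 1)
  refine ⟨(LL (n + 1)).1.length - 1 + 1, by omega, ?_⟩
  change (ent _).2 = _
  rw [← LL_getD (n + 1) _ (by omega)]
  rw [List.getLast?_eq_getElem?] at h1
  rw [List.getD, h1]
  rfl

theorem reset_seq (eps : ℝ) (he : 0 < eps) (Lb : ℕ) : ∃ T : ℕ, ∀ᶠ R in atTop, ∀ i, i ≤ Lb →
    |yv lam (nA R + T + i + 1) - yv lam (nB R + T + i + 1)| ≤ eps := by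
  obtain ⟨h, hh⟩ : ∃ h, Lb < 2 ^ (h + 1) := ⟨Lb, lt_of_lt_of_le Nat.lt_two_pow_self
    (Nat.pow_le_pow_right (by norm_num) (by omega))⟩
  have hev : ∀ᶠ q : ℕ × ℕ in comap Prod.fst atTop, ∀ i ∈ Finset.range (Lb + 1),
      |yv lam (i + 2 ^ (h + 1) * (2 ^ q.1 * q.2)) - yv lam i| < eps / 2 := by
    rw [Filter.eventually_all_finset]
    intro i hi
    have hi' : i < 2 ^ (h + 1) := by
      rw [Finset.mem_range] at hi; omega
    have := yv_reset (fun k => (lam_mem k).1) lam_inf h i hi'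
    have := Metric.tendsto_nhds.1 this (eps / 2) (by linarith)
    simpa only [Real.dist_eq] using this
  rw [Filter.eventually_comap] at hev
  obtain ⟨J, hJ⟩ := Filter.eventually_atTop.1 hev
  set R1 := h + 1 + J with hR1
  set H := (LL R1).1.length + 1 with hH
  set c := 2 * nm (LL R1).1 + 1 with hc
  have hcH : c < 2 ^ H := by
    have := nm_lt (LL R1).1
    rw [hH, pow_succ]; omega
  refine ⟨2 ^ H - c, ?_⟩
  filter_upwards [eventually_ge_atTop R1] with R hR i hi
  have key : ∀ (s : List (Bool × ℝ)), 2 * nm ((LL R1).1 ++ s) + (2 ^ H - c) + i + 1 =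
      i + 2 ^ (h + 1) * (2 ^ (H - (h + 1)) * (nm s + 1)) := by
    intro s
    have e1 : 2 ^ (h + 1) * (2 ^ (H - (h + 1)) * (nm s + 1)) = 2 ^ H * (nm s + 1) := by
      rw [← mul_assoc, ← pow_add]
      congr 2
      have := LL_len R1
      omega
    have e2 : 2 * nm ((LL R1).1 ++ s) + 1 = c + 2 ^ H * nm s := by
      rw [nm_append, hc, hH, pow_succ]; ring
    rw [e1, mul_add, mul_one]
    omega
  have hJle : J ≤ H - (h + 1) := by have := LL_len R1; omega
  obtain ⟨s, hs⟩ := LL_init hR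
  have eA : nA R + (2 ^ H - c) + i + 1 = i + 2 ^ (h + 1) * (2 ^ (H - (h + 1)) * (nm (s ++ alt (LL R)) + 1)) := by
    rw [← key, nA, hs, List.append_assoc]
  have eB : nB R + (2 ^ H - c) + i + 1 = i + 2 ^ (h + 1) * (2 ^ (H - (h + 1)) * (nm (s ++ ext (LL R)) + 1)) := by
    rw [← key, nB, LL_succ, hs, List.append_assoc]
  rw [eA, eB]
  have hA := hJ _ hJle (H - (h + 1), nm (s ++ alt (LL R)) + 1) rfl i (by rw [Finset.mem_range]; omega)
  have hB := hJ _ hJle (H - (h + 1), nm (s ++ ext (LL R)) + 1) rfl i (by rw [Finset.mem_range]; omega)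
  simp only at hA hB
  rw [abs_lt] at hA hB
  rw [abs_le]
  constructor <;> linarith [hA.1, hA.2, hB.1, hB.2]

theorem tendsto_nA : Tendsto nA atTop atTop := tendsto_atTop_mono nA_ge tendsto_id
theorem tendsto_nB : Tendsto nB atTop atTop := tendsto_atTop_mono nB_ge tendsto_id

/-- Abstract criterion against asymptotic almost periodicity. -/
theorem not_ap (g : ℕ → ℝ) (nA nB : ℕ → ℕ) (hA : Tendsto nA atTop atTop)
    (hB : Tendsto nB atTop atTop) (D : ℝ) (hD : 0 < D) (hgap : ∀ R, D ≤ |g (nA R) - g (nB R)|)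
    (hreset : ∀ eps : ℝ, 0 < eps → ∀ Lb : ℕ, ∃ T : ℕ, ∀ᶠ R in atTop, ∀ i, i ≤ Lb →
      |g (nA R + T + i) - g (nB R + T + i)| ≤ eps)
    (c : ℤ → ℝ)
    (hc : ∀ ε : ℝ, 0 < ε → ∃ L : ℕ, ∀ m : ℤ, ∃ τ : ℤ, m ≤ τ ∧ τ ≤ m + L ∧ ∀ n : ℤ, |c (n + τ) - c n| < ε)
    (hlim : Tendsto (fun n : ℕ => g n - c n) atTop (𝓝 0)) : False := by
  obtain ⟨L, hL⟩ := hc (D / 8) (by linarith)
  obtain ⟨T, hT⟩ := hreset (D / 8) (by linarith) L
  obtain ⟨τ, h1, h2, h3⟩ := hL T
  obtain ⟨i, hi⟩ : ∃ i : ℕ, τ = (T : ℤ) + i := ⟨(τ - T).toNat, by omega⟩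
  have hiL : i ≤ L := by omega
  have hev : ∀ᶠ n : ℕ in atTop, |g n - c n| < D / 8 := by
    have := Metric.tendsto_nhds.1 hlim (D / 8) (by linarith)
    simpa only [Real.dist_eq, sub_zero] using this
  obtain ⟨n0, hn0⟩ := Filter.eventually_atTop.1 hev
  obtain ⟨R, hR1, hR2, hR3⟩ := (hT.and ((hA.eventually_ge_atTop n0).and (hB.eventually_ge_atTop n0))).exists
  have a1 := hn0 _ hR2
  have a2 := hn0 _ hR3
  have a3 := hn0 (nA R + T + i) (by omega)
  have a4 := hn0 (nB R + T + i) (by omega)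
  have a5 := h3 (nA R)
  have a6 := h3 (nB R)
  have a7 := hR1 i hiL
  have a8 := hgap R
  rw [hi] at a5 a6
  have e1 : ((nA R : ℤ) + ((T : ℤ) + i)) = ((nA R + T + i : ℕ) : ℤ) := by push_cast; ring
  have e2 : ((nB R : ℤ) + ((T : ℤ) + i)) = ((nB R + T + i : ℕ) : ℤ) := by push_cast; ring
  rw [e1] at a5
  rw [e2] at a6
  rw [abs_lt] at a1 a2 a3 a4 a5 a6
  rw [abs_le] at a7
  rcases abs_cases (g (nA R) - g (nB R)) with h | h <;>
    linarith [a1.1, a1.2, a2.1, a2.2, a3.1, a3.2, a4.1, a4.2, a5.1, a5.2, a6.1, a6.2, a7.1, a7.2, h.1, a8]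

theorem yv_pos_nonneg (n : ℕ) : 0 ≤ yv lam n := by
  have hl' : ∀ k, 2 < sh lam k := fun k => (lam_mem (k + 1)).1
  have h := cl_Nf (n / 2) hl' (lam 0 - 1) (by rw [lam_zero]; norm_num)
  have h2 := (cl_Nf (n / 2) hl').nonneg (z := lam 0 - 1) (by rw [lam_zero]; norm_num)
  have h0 : 0 < lam 0 := by rw [lam_zero]; norm_num
  unfold yv
  split_ifs
  · positivity
  · exact div_nonneg (by linarith [h.2]) h0.le

theorem sqrt_sub_le {x y : ℝ} (hx : 0 ≤ x) (hy : 0 ≤ y) :
    |Real.sqrt x - Real.sqrt y| ≤ Real.sqrt |x - y| := by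
  apply Real.le_sqrt_of_sq_le
  have h1 := Real.sq_sqrt hx
  have h2 := Real.sq_sqrt hy
  have h3 := Real.sqrt_nonneg x
  have h4 := Real.sqrt_nonneg y
  rw [sq_abs]
  have e : x - y = (Real.sqrt x - Real.sqrt y) * (Real.sqrt x + Real.sqrt y) := by nlinarith
  rw [e, abs_mul, abs_of_nonneg (by linarith : 0 ≤ Real.sqrt x + Real.sqrt y)]
  have h5 : |Real.sqrt x - Real.sqrt y| ≤ Real.sqrt x + Real.sqrt y := by
    rw [abs_le]; constructor <;> linarith
  calc (Real.sqrt x - Real.sqrt y) ^ 2 = |Real.sqrt x - Real.sqrt y| * |Real.sqrt x - Real.sqrt y| := by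
        rw [← sq, sq_abs]
    _ ≤ _ := mul_le_mul_of_nonneg_left h5 (abs_nonneg _)

/-- The square roots of the coefficients are not asymptotically almost periodic. -/
theorem sqrt_not_ap (κ : ℝ) (hκ : 0 < κ) (c : ℤ → ℝ)
    (hc : ∀ ε : ℝ, 0 < ε → ∃ L : ℕ, ∀ m : ℤ, ∃ τ : ℤ, m ≤ τ ∧ τ ≤ m + L ∧ ∀ n : ℤ, |c (n + τ) - c n| < ε)
    (hlim : Tendsto (fun n : ℕ => κ * Real.sqrt (yv lam (n + 1)) - c n) atTop (𝓝 0)) : False := by
  refine not_ap (fun n => κ * Real.sqrt (yv lam (n + 1))) nA nB tendsto_nA tendsto_nB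
    (κ * (1 / 50)) (by positivity) ?_ ?_ c hc hlim
  · intro R
    have h1 := yA R
    have h2 := yB R
    have h3 := yv_pos_nonneg (nA R + 1)
    have s1 : Real.sqrt (yv lam (nA R + 1)) ≤ 3 / 5 := by
      rw [Real.sqrt_le_left (by norm_num)]; linarith
    have s2 : 31 / 50 ≤ Real.sqrt (yv lam (nB R + 1)) := by
      apply Real.le_sqrt_of_sq_le; linarith
    have : κ * (1 / 50) ≤ κ * Real.sqrt (yv lam (nB R + 1)) - κ * Real.sqrt (yv lam (nA R + 1)) := by
      rw [← mul_sub]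
      apply mul_le_mul_of_nonneg_left _ hκ.le
      linarith
    rw [abs_sub_comm]
    exact this.trans (le_abs_self _)
  · intro eps he Lb
    obtain ⟨T, hT⟩ := reset_seq ((eps / κ) ^ 2) (by positivity) Lb
    refine ⟨T, ?_⟩
    filter_upwards [hT] with R hR i hi
    have := hR i hi
    rw [← mul_sub, abs_mul, abs_of_pos hκ]
    have h1 := sqrt_sub_le (yv_pos_nonneg (nA R + T + i + 1)) (yv_pos_nonneg (nB R + T + i + 1))
    have h2 : Real.sqrt |yv lam (nA R + T + i + 1) - yv lam (nB R + T + i + 1)| ≤ eps / κ := by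
      rw [Real.sqrt_le_left (by positivity)]
      exact this
    calc κ * _ ≤ κ * (eps / κ) := mul_le_mul_of_nonneg_left (h1.trans h2) hκ.le
      _ = eps := by field_simp

end Pool.Agent.Helper919.CE
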