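import Pool.Agent.Helper919.CE.Circle

set_option autoImplicit false

open MeasureTheory Filter Topology

namespace Pool.Agent.Helper919.CE

open Classical in
/-- The logarithmic kernel. -/
noncomputable def k2 (x y : ℝ) : ENNReal :=
  if x = y then ⊤ else ENNReal.ofReal (Real.log (2 / |x - y|))

theorem k2_self (x : ℝ) : k2 x x = ⊤ := by unfold k2; simp

theorem k2_ne {x y : ℝ} (h : x ≠ y) : k2 x y = ENNReal.ofReal (Real.log (2 / |x - y|)) := by
  unfold k2; rw [if_neg h]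

theorem k2_comm (x y : ℝ) : k2 x y = k2 y x := by
  by_cases h : x = y
  · rw [h]
  · rw [k2_ne h, k2_ne (Ne.symm h), abs_sub_comm]

theorem measurable_k2 : Measurable fun p : ℝ × ℝ => k2 p.1 p.2 := by
  unfold k2
  apply Measurable.ite
  · exact measurableSet_eq_fun measurable_fst measurable_snd
  · exact measurable_const
  · apply ENNReal.measurable_ofReal.comp
    apply Real.measurable_log.comp
    apply Measurable.const_div
    exact (measurable_fst.sub measurable_snd).abs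

theorem lt_k2 (M : NNReal) {x y : ℝ} (h : |x - y| < 2 * Real.exp (-(M : ℝ) - 1)) :
    (M : ENNReal) < k2 x y := by
  by_cases hxy : x = y
  · rw [hxy, k2_self]; exact ENNReal.coe_lt_top
  · rw [k2_ne hxy]
    have hpos : 0 < |x - y| := abs_pos.2 (sub_ne_zero.2 hxy)
    have h1 : (M : ℝ) + 1 < Real.log (2 / |x - y|) := by
      rw [Real.lt_log_iff_exp_lt (by positivity), lt_div_iff₀ hpos]
      have h2 : Real.exp ((M:ℝ) + 1) * |x - y| < Real.exp ((M:ℝ) + 1) * (2 * Real.exp (-(M : ℝ) - 1)) :=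
        mul_lt_mul_of_pos_left h (Real.exp_pos _)
      have h3 : Real.exp ((M:ℝ) + 1) * (2 * Real.exp (-(M : ℝ) - 1)) = 2 := by
        rw [mul_left_comm, ← Real.exp_add]
        have : (M:ℝ) + 1 + (-(M:ℝ) - 1) = 0 := by ring
        rw [this, Real.exp_zero, mul_one]
      linarith
    rw [← ENNReal.ofReal_coe_nnreal]
    have hM : (0:ℝ) ≤ M := M.2
    rw [ENNReal.ofReal_lt_ofReal_iff (by linarith)]
    linarith

theorem k2_tendsto {x y : ℕ → ℝ} {a b : ℝ} (hx : Tendsto x atTop (𝓝 a)) (hy : Tendsto y atTop (𝓝 b)) :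
    Tendsto (fun n => k2 (x n) (y n)) atTop (𝓝 (k2 a b)) := by
  have hxy : Tendsto (fun n => |x n - y n|) atTop (𝓝 |a - b|) := (hx.sub hy).abs
  by_cases h : a = b
  · rw [h, k2_self, ENNReal.tendsto_nhds_top_iff_nnreal]
    intro M
    rw [h, sub_self, abs_zero] at hxy
    have := hxy.eventually_lt_const (u := 2 * Real.exp (-(M : ℝ) - 1)) (by positivity)
    exact this.mono fun n hn => lt_k2 M hn
  · rw [k2_ne h]
    have hab : |a - b| ≠ 0 := abs_ne_zero.2 (sub_ne_zero.2 h)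
    have h1 : Tendsto (fun n => ENNReal.ofReal (Real.log (2 / |x n - y n|))) atTop
        (𝓝 (ENNReal.ofReal (Real.log (2 / |a - b|)))) := by
      apply (ENNReal.continuous_ofReal.tendsto _).comp
      apply (Real.continuousAt_log (div_ne_zero two_ne_zero hab)).tendsto.comp
      exact tendsto_const_nhds.div hxy hab
    apply h1.congr'
    have := hxy.eventually_ne hab
    refine this.mono fun n hn => ?_
    change ENNReal.ofReal (Real.log (2 / |x n - y n|)) = k2 (x n) (y n)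
    rw [k2_ne]
    intro h2
    exact hn (by rw [h2]; simp)

theorem k2_add {l x y : ℝ} (hl : 2 ≤ l) (hx : |x| ≤ 1) (hy : |y| ≤ 1) (hfx : |fq l x| ≤ 1)
    (hfy : |fq l y| ≤ 1) :
    k2 x y + k2 x (-y) = ENNReal.ofReal (Real.log (2 * l)) + k2 (fq l x) (fq l y) := by
  by_cases h1 : x = y
  · rw [h1, k2_self, k2_self]; simp
  by_cases h2 : x = -y
  · have : fq l x = fq l y := by unfold fq; rw [h2]; ring
    rw [this, k2_self, ← h2, k2_self]; simp
  have e : fq l x - fq l y = l * (x - y) * (x - -y) := by unfold fq; ring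
  have d1 : x - y ≠ 0 := sub_ne_zero.2 h1
  have d2 : x - -y ≠ 0 := sub_ne_zero.2 h2
  have hl0 : l ≠ 0 := by linarith
  have h3 : fq l x ≠ fq l y := by
    intro h
    rw [h, sub_self] at e
    exact mul_ne_zero (mul_ne_zero hl0 d1) d2 e.symm
  have bound : ∀ {u v : ℝ}, |u| ≤ 1 → |v| ≤ 1 → u ≠ v → 0 ≤ Real.log (2 / |u - v|) := by
    intro u v hu hv huv
    apply Real.log_nonneg
    rw [le_div_iff₀ (abs_pos.2 (sub_ne_zero.2 huv)), one_mul]
    have := abs_sub u v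
    linarith
  rw [k2_ne h1, k2_ne h2, k2_ne h3, ← ENNReal.ofReal_add (bound hx hy h1)
    (bound hx (by rwa [abs_neg]) h2), ← ENNReal.ofReal_add _ (bound hfx hfy h3)]
  · congr 1
    rw [e, abs_mul, abs_mul]
    have a1 : |x - y| ≠ 0 := abs_ne_zero.2 d1
    have a2 : |x - -y| ≠ 0 := abs_ne_zero.2 d2
    have a3 : |l| ≠ 0 := abs_ne_zero.2 hl0
    rw [Real.log_div two_ne_zero a1, Real.log_div two_ne_zero a2,
      Real.log_div two_ne_zero (mul_ne_zero (mul_ne_zero a3 a1) a2), Real.log_mul (mul_ne_zero a3 a1) a2,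
      Real.log_mul a3 a1, Real.log_mul two_ne_zero hl0, Real.log_abs l]
    ring
  · exact Real.log_nonneg (by linarith)

theorem pot_rec {l x : ℝ} (hl : 2 ≤ l) (hx : |x| ≤ 1) (hfx : |fq l x| ≤ 1)
    {q q' : UnitAddCircle → ℝ} (hq : Measurable q) (hq' : Measurable q')
    (hm : ∀ θ, |q θ| ≤ 1) (hm' : ∀ θ, |q' θ| ≤ 1) (hh : ∀ θ, q (θ + half) = - q θ)
    (hf : ∀ θ, fq l (q θ) = q' ((2:ℕ) • θ)) :
    2 * ∫⁻ θ, k2 x (q θ) = ENNReal.ofReal (Real.log (2 * l)) + ∫⁻ θ, k2 (fq l x) (q' θ) := by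
  have m1 : Measurable fun θ => k2 x (q θ) :=
    measurable_k2.comp (measurable_const.prodMk hq)
  have m2 : Measurable fun θ => k2 (fq l x) (q' θ) :=
    measurable_k2.comp (measurable_const.prodMk hq')
  have e1 : ∫⁻ θ, k2 x (q θ) = ∫⁻ θ, k2 x (- q θ) := by
    rw [← mp_half.lintegral_comp m1]
    simp only [hh]
  have e2 : ∫⁻ θ, k2 (fq l x) (q' θ) = ∫⁻ θ, k2 (fq l x) (q' ((2:ℕ) • θ)) :=
    (mp_dbl.lintegral_comp m2).symm
  rw [two_mul]
  conv_lhs => rw [e1]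
  conv_lhs => enter [1]; rw [← e1]
  rw [← lintegral_add_left m1, e2]
  have e3 : ∀ θ, k2 x (q θ) + k2 x (- q θ) =
      ENNReal.ofReal (Real.log (2 * l)) + k2 (fq l x) (q' ((2:ℕ) • θ)) := by
    intro θ
    rw [← hf θ]
    exact k2_add hl hx (hm θ) hfx (by rw [hf θ]; exact hm' _)
  simp only [e3]
  rw [lintegral_add_left measurable_const, lintegral_const]
  simp

theorem en_rec {l : ℝ} (hl : 2 ≤ l)
    {q q' : UnitAddCircle → ℝ} (hq : Measurable q) (hq' : Measurable q')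
    (hm : ∀ θ, |q θ| ≤ 1) (hm' : ∀ θ, |q' θ| ≤ 1) (hh : ∀ θ, q (θ + half) = - q θ)
    (hf : ∀ θ, fq l (q θ) = q' ((2:ℕ) • θ)) :
    2 * ∫⁻ φ, ∫⁻ θ, k2 (q φ) (q θ) = ENNReal.ofReal (Real.log (2 * l)) + ∫⁻ φ, ∫⁻ θ, k2 (q' φ) (q' θ) := by
  have m3 : Measurable fun p : UnitAddCircle × UnitAddCircle => k2 (q p.1) (q p.2) :=
    measurable_k2.comp ((hq.comp measurable_fst).prodMk (hq.comp measurable_snd))
  have m4 : Measurable fun p : UnitAddCircle × UnitAddCircle => k2 (q' p.1) (q' p.2) :=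
    measurable_k2.comp ((hq'.comp measurable_fst).prodMk (hq'.comp measurable_snd))
  have m1 : Measurable fun φ => ∫⁻ θ, k2 (q φ) (q θ) := m3.lintegral_prod_right'
  have m2 : Measurable fun φ => ∫⁻ θ, k2 (q' φ) (q' θ) := m4.lintegral_prod_right'
  rw [← lintegral_const_mul _ m1]
  have e : ∀ φ, 2 * ∫⁻ θ, k2 (q φ) (q θ) =
      ENNReal.ofReal (Real.log (2 * l)) + ∫⁻ θ, k2 (q' ((2:ℕ) • φ)) (q' θ) := by
    intro φ
    rw [pot_rec hl (hm φ) (by rw [hf]; exact hm' _) hq hq' hm hm' hh hf, hf]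
  simp only [e]
  rw [lintegral_add_left measurable_const, lintegral_const]
  have e2 : ∫⁻ φ, ∫⁻ θ, k2 (q' φ) (q' θ) = ∫⁻ φ : UnitAddCircle, ∫⁻ θ, k2 (q' ((2:ℕ) • φ)) (q' θ) :=
    (mp_dbl.lintegral_comp m2).symm
  rw [e2]
  simp

/-- Composition of the first levels. -/
noncomputable def Fs : ℕ → (ℕ → ℝ) → ℝ → ℝ
  | 0, _, x => x
  | (s + 1), lam, x => Fs s (sh lam) (fq (lam 0) x)

theorem Fs_zero (lam : ℕ → ℝ) (x : ℝ) : Fs 0 lam x = x := rfl

theorem Fs_succ (s : ℕ) (lam : ℕ → ℝ) (x : ℝ) : Fs (s + 1) lam x = Fs s (sh lam) (fq (lam 0) x) := rfl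

theorem Fs_succ' (s : ℕ) : ∀ (lam : ℕ → ℝ) (x : ℝ), Fs (s + 1) lam x = fq (lam s) (Fs s lam x) := by
  induction s with
  | zero => intro lam x; rfl
  | succ s ih =>
    intro lam x
    rw [Fs_succ, ih (sh lam), ← Fs_succ]
    rfl

theorem Fs_Q (s : ℕ) : ∀ {lam : ℕ → ℝ}, (∀ k, 2 ≤ lam k) → ∀ θ, |Fs s lam (Q lam θ)| ≤ 1 := by
  induction s with
  | zero => intro lam h θ; exact Q_mem h θ
  | succ s ih =>
    intro lam h θ
    rw [Fs_succ, fq_Q h]
    exact ih (fun k => h (k + 1)) _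

/-- finite sums for the constant -/
noncomputable def Vn : ℕ → (ℕ → ℝ) → ENNReal
  | 0, _ => 0
  | (n + 1), lam => (ENNReal.ofReal (Real.log (2 * lam 0)) + Vn n (sh lam)) / 2

theorem Vn_le (n : ℕ) (C : ℝ) : ∀ {lam : ℕ → ℝ}, (∀ k, Real.log (2 * lam k) ≤ C) →
    Vn n lam ≤ ENNReal.ofReal C := by
  induction n with
  | zero => intro lam _; exact zero_le
  | succ n ih =>
    intro lam h
    have h1 := ih (lam := sh lam) fun k => h (k + 1)
    have h2 := ENNReal.ofReal_le_ofReal (h 0)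
    rw [Vn]
    apply ENNReal.div_le_of_le_mul
    rw [mul_two]
    exact add_le_add h2 h1

/-- The potential. -/
noncomputable def U (lam : ℕ → ℝ) (x : ℝ) : ENNReal := ∫⁻ θ : UnitAddCircle, k2 x (Q lam θ)

theorem U_rec {lam : ℕ → ℝ} (h : ∀ k, 2 ≤ lam k) {x : ℝ} (hx : |x| ≤ 1) (hfx : |fq (lam 0) x| ≤ 1) :
    2 * U lam x = ENNReal.ofReal (Real.log (2 * lam 0)) + U (sh lam) (fq (lam 0) x) :=
  pot_rec (h 0) hx hfx (measurable_Q h) (measurable_Q fun k => h (k + 1)) (Q_mem h)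
    (Q_mem fun k => h (k + 1)) (Q_half h) (fq_Q h)

theorem U_ge (n : ℕ) : ∀ {lam : ℕ → ℝ}, (∀ k, 2 ≤ lam k) → ∀ {x : ℝ}, (∀ s, |Fs s lam x| ≤ 1) →
    Vn n lam ≤ U lam x := by
  induction n with
  | zero => intro lam _ x _; exact zero_le
  | succ n ih =>
    intro lam h x hx
    have h1 := ih (lam := sh lam) (fun k => h (k + 1)) (x := fq (lam 0) x) (fun s => hx (s + 1))
    have h2 := U_rec (x := x) h (hx 0) (hx 1)
    rw [Vn]
    apply ENNReal.div_le_of_le_mul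
    rw [mul_comm (U lam x), h2]
    exact add_le_add le_rfl h1

/-- energy of the approximations -/
noncomputable def IJ (J : ℕ) (lam : ℕ → ℝ) : ENNReal :=
  ∫⁻ φ : UnitAddCircle, ∫⁻ θ : UnitAddCircle, k2 (QJ J lam φ) (QJ J lam θ)

/-- energy of the top function -/
noncomputable def I0 : ENNReal := ∫⁻ φ : UnitAddCircle, ∫⁻ θ : UnitAddCircle, k2 (q0 φ) (q0 θ)

theorem IJ_eq (J : ℕ) : ∀ {lam : ℕ → ℝ}, (∀ k, 2 ≤ lam k) → IJ J lam = Vn J lam + I0 / 2 ^ J := by
  induction J with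
  | zero => intro lam _; unfold IJ I0; simp [Vn, QJ]
  | succ J ih =>
    intro lam h
    have h' : ∀ k, 2 ≤ sh lam k := fun k => h (k + 1)
    have h1 : 2 * IJ (J + 1) lam = ENNReal.ofReal (Real.log (2 * lam 0)) + IJ J (sh lam) :=
      en_rec (h 0) (measurable_QJ (J + 1)) (measurable_QJ J) (QJ_mem (J + 1) h)
        (QJ_mem J h') (QJ_half) (fq_QJ h)
    rw [ih h'] at h1
    have h2 : IJ (J + 1) lam = (2 * IJ (J + 1) lam) / 2 := by
      rw [mul_comm, ENNReal.mul_div_cancel_right two_ne_zero ENNReal.ofNat_ne_top]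
    have h3 : I0 / 2 ^ (J + 1) = I0 / 2 ^ J / 2 := by
      rw [pow_succ, div_eq_mul_inv, div_eq_mul_inv, div_eq_mul_inv,
        ENNReal.mul_inv (Or.inr (by simp)) (Or.inr (by simp)), mul_assoc]
    rw [h2, h1, Vn, ← add_assoc, ENNReal.add_div, h3]

/-- the energy of the law of the coding map -/
noncomputable def En (lam : ℕ → ℝ) : ENNReal :=
  ∫⁻ φ : UnitAddCircle, ∫⁻ θ : UnitAddCircle, k2 (Q lam φ) (Q lam θ)

theorem En_le_liminf {lam : ℕ → ℝ} (h : ∀ k, 2 ≤ lam k) :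
    En lam ≤ liminf (fun J => IJ J lam) atTop := by
  have m3 : ∀ J, Measurable fun p : UnitAddCircle × UnitAddCircle => k2 (QJ J lam p.1) (QJ J lam p.2) :=
    fun J => measurable_k2.comp (((measurable_QJ J).comp measurable_fst).prodMk
      ((measurable_QJ J).comp measurable_snd))
  have m1 : ∀ J, Measurable fun φ => ∫⁻ θ, k2 (QJ J lam φ) (QJ J lam θ) :=
    fun J => (m3 J).lintegral_prod_right'
  have e : ∀ φ θ, k2 (Q lam φ) (Q lam θ) = liminf (fun J => k2 (QJ J lam φ) (QJ J lam θ)) atTop :=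
    fun φ θ => ((k2_tendsto (Q_tendsto h φ) (Q_tendsto h θ)).liminf_eq).symm
  unfold En IJ
  simp only [e]
  refine le_trans (lintegral_mono fun φ => ?_) (lintegral_liminf_le m1)
  exact lintegral_liminf_le fun J => (m3 J).comp (measurable_const.prodMk measurable_id)

theorem Vn_le_iSup (n : ℕ) (lam : ℕ → ℝ) : Vn n lam ≤ ⨆ n, Vn n lam := le_iSup (fun n => Vn n lam) n

theorem En_le {lam : ℕ → ℝ} (h : ∀ k, 2 ≤ lam k) (hI : I0 ≠ ⊤) : En lam ≤ ⨆ n, Vn n lam := by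
  refine (En_le_liminf h).trans ?_
  have h1 : Tendsto (fun J : ℕ => (⨆ n, Vn n lam) + I0 / 2 ^ J) atTop (𝓝 ((⨆ n, Vn n lam) + 0)) := by
    apply Tendsto.const_add
    have : Tendsto (fun J : ℕ => I0 * (2⁻¹ : ENNReal) ^ J) atTop (𝓝 (I0 * 0)) := by
      apply ENNReal.Tendsto.const_mul _ (Or.inr hI)
      exact ENNReal.tendsto_pow_atTop_nhds_zero_of_lt_one (by simp)
    rw [mul_zero] at this
    refine this.congr fun J => ?_
    rw [div_eq_mul_inv, ENNReal.inv_pow]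
  rw [add_zero] at h1
  rw [← h1.liminf_eq]
  refine liminf_le_liminf (Eventually.of_forall fun J => ?_)
  rw [IJ_eq J h]
  exact add_le_add (Vn_le_iSup J lam) le_rfl

end Pool.Agent.Helper919.CE
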