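import Pool.Agent.Helper919.CE.Energy

set_option autoImplicit false

open MeasureTheory Filter Topology

namespace Pool.Agent.Helper919.CE

theorem q0_coe {t : ℝ} (ht : t ∈ Set.Ioc (0:ℝ) (0 + 1)) : q0 (t : UnitAddCircle) = 2 * t - 1 := by
  unfold q0
  have : (AddCircle.measurableEquivIoc 1 0 (t : UnitAddCircle)) = ⟨t, ht⟩ :=
    AddCircle.equivIoc_coe_eq ht
  rw [this]

theorem log_lint : ∫⁻ u in Set.Ioc (-1:ℝ) 1, ‖Real.log u‖ₑ < ⊤ := by
  have h := (intervalIntegral.intervalIntegrable_log' (a := -1) (b := 1))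
  rw [intervalIntegrable_iff_integrableOn_Ioc_of_le (by norm_num)] at h
  exact h.2

theorem k2_q0 {s t : ℝ} (h : s ≠ t) : k2 (2 * s - 1) (2 * t - 1) ≤ ‖Real.log (t - s)‖ₑ := by
  rw [k2_ne (by intro h2; apply h; linarith)]
  have e1 : 2 * s - 1 - (2 * t - 1) = 2 * (s - t) := by ring
  have d : |s - t| ≠ 0 := abs_ne_zero.2 (sub_ne_zero.2 h)
  rw [e1, abs_mul, abs_two, Real.log_div two_ne_zero (mul_ne_zero two_ne_zero d),
    Real.log_mul two_ne_zero d, Real.log_abs]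
  rw [← Real.log_neg_eq_log (s - t), neg_sub]
  rw [← ofReal_norm]
  apply ENNReal.ofReal_le_ofReal
  rw [Real.norm_eq_abs]
  have := neg_abs_le (Real.log (t - s))
  linarith

theorem I0_ne_top : I0 ≠ ⊤ := by
  have m3 : Measurable fun p : UnitAddCircle × UnitAddCircle => k2 (q0 p.1) (q0 p.2) :=
    measurable_k2.comp ((measurable_q0.comp measurable_fst).prodMk (measurable_q0.comp measurable_snd))
  unfold I0
  rw [← UnitAddCircle.lintegral_preimage 0]
  have key : ∀ s ∈ Set.Ioc (0:ℝ) (0 + 1), ∫⁻ θ : UnitAddCircle, k2 (q0 (s : UnitAddCircle)) (q0 θ) ≤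
      ∫⁻ u in Set.Ioc (-1:ℝ) 1, ‖Real.log u‖ₑ := by
    intro s hs
    rw [← UnitAddCircle.lintegral_preimage 0]
    have h1 : ∫⁻ t in Set.Ioc (0:ℝ) (0 + 1), k2 (q0 (s : UnitAddCircle)) (q0 (t : UnitAddCircle)) ≤
        ∫⁻ t in Set.Ioc (0:ℝ) (0 + 1), (Set.Ioc (-1:ℝ) 1).indicator (fun u => ‖Real.log u‖ₑ) (t - s) := by
      apply lintegral_mono_ae
      rw [ae_restrict_iff' measurableSet_Ioc]
      have : ∀ᵐ t : ℝ, t ≠ s := by
        rw [ae_iff]; simp
      filter_upwards [this] with t hts ht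
      rw [q0_coe hs, q0_coe ht, Set.indicator_of_mem]
      · exact k2_q0 (Ne.symm hts)
      · simp only [zero_add, Set.mem_Ioc] at hs ht ⊢
        constructor <;> linarith
    refine h1.trans ?_
    refine (setLIntegral_le_lintegral _ _).trans ?_
    rw [lintegral_sub_right_eq_self (fun u => (Set.Ioc (-1:ℝ) 1).indicator (fun u => ‖Real.log u‖ₑ) u) s,
      lintegral_indicator measurableSet_Ioc]
  have h2 : ∫⁻ s in Set.Ioc (0:ℝ) (0 + 1), ∫⁻ θ : UnitAddCircle, k2 (q0 (s : UnitAddCircle)) (q0 θ) ≤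
      ∫⁻ _ in Set.Ioc (0:ℝ) (0 + 1), ∫⁻ u in Set.Ioc (-1:ℝ) 1, ‖Real.log u‖ₑ := by
    apply setLIntegral_mono measurable_const
    exact key
  refine ne_top_of_le_ne_top ?_ h2
  rw [lintegral_const]
  simp only [zero_add, Measure.restrict_apply MeasurableSet.univ, Set.univ_inter, Real.volume_Ioc, sub_zero,
    ENNReal.ofReal_one, mul_one]
  exact log_lint.ne

theorem two_mul_le_sq (a b : ENNReal) : 2 * (a * b) ≤ a * a + b * b := by
  wlog h : a ≤ b generalizing a b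
  · rw [mul_comm a b, add_comm]
    exact this b a (le_of_not_ge h)
  · obtain ⟨c, rfl⟩ := exists_add_of_le h
    have e : a * a + (a + c) * (a + c) = 2 * (a * (a + c)) + c * c := by ring
    rw [e]
    exact le_self_add

theorem swap3 {Ω : Type*} [MeasurableSpace Ω] (m : Measure Ω) [SFinite m] (α β : Measure ℝ)
    [SFinite α] [SFinite β] (g : Ω → ℝ → ENNReal) (hg : Measurable (Function.uncurry g)) :
    ∫⁻ x, ∫⁻ y, ∫⁻ ω, g ω x * g ω y ∂m ∂β ∂α =
      ∫⁻ ω, (∫⁻ x, g ω x ∂α) * (∫⁻ y, g ω y ∂β) ∂m := by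
  have m1 : ∀ ω, Measurable fun x => g ω x := fun ω => hg.comp (measurable_const.prodMk measurable_id)
  have m2 : ∀ x, Measurable fun ω => g ω x := fun x => hg.comp (measurable_id.prodMk measurable_const)
  have mG : Measurable fun ω => ∫⁻ y, g ω y ∂β := hg.lintegral_prod_right'
  have e1 : ∀ x, ∫⁻ y, ∫⁻ ω, g ω x * g ω y ∂m ∂β = ∫⁻ ω, g ω x * ∫⁻ y, g ω y ∂β ∂m := by
    intro x
    rw [lintegral_lintegral_swap]
    · exact lintegral_congr fun ω => lintegral_const_mul _ (m1 ω)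
    · have : Measurable fun p : ℝ × Ω => g p.2 x * g p.2 p.1 :=
        ((m2 x).comp measurable_snd).mul (hg.comp (measurable_snd.prodMk measurable_fst))
      exact this.aemeasurable
  simp only [e1]
  rw [lintegral_lintegral_swap]
  · exact lintegral_congr fun ω => lintegral_mul_const _ (m1 ω)
  · have : Measurable fun p : ℝ × Ω => g p.2 p.1 * ∫⁻ y, g p.2 y ∂β :=
      (hg.comp (measurable_snd.prodMk measurable_fst)).mul (mG.comp measurable_snd)
    exact this.aemeasurable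

theorem pd_gen {Ω : Type*} [MeasurableSpace Ω] (m : Measure Ω) [SFinite m] (α β : Measure ℝ)
    [SFinite α] [SFinite β] (g : Ω → ℝ → ENNReal) (hg : Measurable (Function.uncurry g)) :
    2 * ∫⁻ x, ∫⁻ y, ∫⁻ ω, g ω x * g ω y ∂m ∂β ∂α ≤
      ∫⁻ x, ∫⁻ y, ∫⁻ ω, g ω x * g ω y ∂m ∂α ∂α + ∫⁻ x, ∫⁻ y, ∫⁻ ω, g ω x * g ω y ∂m ∂β ∂β := by
  have mA : Measurable fun ω => ∫⁻ y, g ω y ∂α := hg.lintegral_prod_right'
  have mB : Measurable fun ω => ∫⁻ y, g ω y ∂β := hg.lintegral_prod_right'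
  rw [swap3 m α β g hg, swap3 m α α g hg, swap3 m β β g hg]
  have e1 : 2 * ∫⁻ ω, (∫⁻ x, g ω x ∂α) * (∫⁻ y, g ω y ∂β) ∂m =
      ∫⁻ ω, 2 * ((∫⁻ x, g ω x ∂α) * (∫⁻ y, g ω y ∂β)) ∂m :=
    (lintegral_const_mul _ (mA.mul mB)).symm
  have e2 : ∫⁻ ω, (∫⁻ x, g ω x ∂α) * (∫⁻ y, g ω y ∂α) ∂m +
      ∫⁻ ω, (∫⁻ x, g ω x ∂β) * (∫⁻ y, g ω y ∂β) ∂m =
      ∫⁻ ω, ((∫⁻ x, g ω x ∂α) * (∫⁻ y, g ω y ∂α) + (∫⁻ x, g ω x ∂β) * (∫⁻ y, g ω y ∂β)) ∂m :=
    (lintegral_add_left (mA.mul mA) _).symm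
  rw [e1, e2]
  exact lintegral_mono fun ω => two_mul_le_sq _ _

open Classical in
/-- The window kernel. -/
noncomputable def gw (ω : ℝ × ℝ) (x : ℝ) : ENNReal :=
  if ω.2 ∈ Set.Icc (x - ω.1 / 2) (x + ω.1 / 2) then 1 else 0

theorem measurable_gw : Measurable (Function.uncurry gw) := by
  unfold Function.uncurry gw
  apply Measurable.ite _ measurable_const measurable_const
  have h1 : Measurable fun p : (ℝ × ℝ) × ℝ => p.1.2 := measurable_snd.comp measurable_fst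
  have h2 : Measurable fun p : (ℝ × ℝ) × ℝ => p.2 - p.1.1 / 2 :=
    measurable_snd.sub ((measurable_fst.comp measurable_fst).div_const 2)
  have h3 : Measurable fun p : (ℝ × ℝ) × ℝ => p.2 + p.1.1 / 2 :=
    measurable_snd.add ((measurable_fst.comp measurable_fst).div_const 2)
  exact (measurableSet_le h2 h1).inter (measurableSet_le h1 h3)

theorem gw_int (r x y : ℝ) : ∫⁻ t, gw (r, t) x * gw (r, t) y = ENNReal.ofReal (r - |x - y|) := by
  have e : ∀ t, gw (r, t) x * gw (r, t) y =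
      (Set.Icc (max (x - r / 2) (y - r / 2)) (min (x + r / 2) (y + r / 2))).indicator 1 t := by
    intro t
    rw [← Set.Icc_inter_Icc]
    unfold gw
    by_cases h1 : t ∈ Set.Icc (x - r / 2) (x + r / 2) <;>
    by_cases h2 : t ∈ Set.Icc (y - r / 2) (y + r / 2) <;>
    simp [h1, h2]
  simp only [e]
  rw [lintegral_indicator_one measurableSet_Icc, Real.volume_Icc]
  congr 1
  rcases le_total x y with h | h
  · rw [max_eq_right (by linarith), min_eq_left (by linarith), abs_of_nonpos (by linarith)]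
    ring
  · rw [max_eq_left (by linarith), min_eq_right (by linarith), abs_of_nonneg (by linarith)]
    ring

/-- The mixing measure. -/
noncomputable def rho : Measure ℝ :=
  (ENNReal.ofReal (1 / 2)) • Measure.dirac 2 +
    (volume.restrict (Set.Ioc (0:ℝ) 2)).withDensity (fun r => ENNReal.ofReal ((r ^ 2)⁻¹))

instance : SFinite rho := by unfold rho; infer_instance

theorem int_calc {u : ℝ} (hu : 0 < u) (hu2 : u ≤ 2) :
    IntegrableOn (fun r => (r ^ 2)⁻¹ * (r - u)) (Set.Ioc u 2) ∧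
    ∫ r in Set.Ioc u 2, (r ^ 2)⁻¹ * (r - u) = Real.log (2 / u) - 1 + u / 2 := by
  have hd : ∀ r ∈ Set.uIcc u 2, HasDerivAt (fun r => Real.log r + u * r⁻¹) ((r ^ 2)⁻¹ * (r - u)) r := by
    intro r hr
    rw [Set.uIcc_of_le hu2] at hr
    have hr0 : r ≠ 0 := ne_of_gt (lt_of_lt_of_le hu hr.1)
    have h1 := (Real.hasDerivAt_log hr0).add ((hasDerivAt_inv hr0).const_mul u)
    refine HasDerivAt.congr_deriv h1 ?_
    field_simp
    ring
  have hi : IntervalIntegrable (fun r => (r ^ 2)⁻¹ * (r - u)) volume u 2 := by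
    apply ContinuousOn.intervalIntegrable
    rw [Set.uIcc_of_le hu2]
    apply ContinuousOn.mul
    · apply ContinuousOn.inv₀ (continuous_pow 2).continuousOn
      intro r hr
      exact pow_ne_zero 2 (ne_of_gt (lt_of_lt_of_le hu hr.1))
    · exact (continuous_id.sub continuous_const).continuousOn
  have h1 := intervalIntegral.integral_eq_sub_of_hasDerivAt hd hi
  rw [intervalIntegral.integral_of_le hu2] at h1
  rw [intervalIntegrable_iff_integrableOn_Ioc_of_le hu2] at hi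
  refine ⟨hi, ?_⟩
  rw [h1, Real.log_div two_ne_zero hu.ne', mul_inv_cancel₀ hu.ne']
  ring

/-- The mixture kernel. -/
noncomputable def Gm (u : ℝ) : ENNReal := ∫⁻ r, ENNReal.ofReal (r - u) ∂rho

theorem Gm_anti {u v : ℝ} (h : u ≤ v) : Gm v ≤ Gm u :=
  lintegral_mono fun r => ENNReal.ofReal_le_ofReal (by linarith)

theorem Gm_eq {u : ℝ} (hu : 0 < u) (hu2 : u ≤ 2) : Gm u = ENNReal.ofReal (Real.log (2 / u)) := by
  unfold Gm rho
  rw [lintegral_add_measure, lintegral_smul_measure, lintegral_dirac,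
    lintegral_withDensity_eq_lintegral_mul _ (by fun_prop) (by fun_prop)]
  have e1 : ∫⁻ r in Set.Ioc (0:ℝ) 2, ((fun r => ENNReal.ofReal ((r ^ 2)⁻¹)) * fun r => ENNReal.ofReal (r - u)) r =
      ENNReal.ofReal (Real.log (2 / u) - 1 + u / 2) := by
    obtain ⟨h1, h2⟩ := int_calc hu hu2
    rw [← h2, ofReal_integral_eq_lintegral_ofReal h1, ← lintegral_indicator measurableSet_Ioc,
      ← lintegral_indicator measurableSet_Ioc]
    · apply lintegral_congr
      intro r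
      by_cases hr : r ∈ Set.Ioc u 2
      · rw [Set.indicator_of_mem hr, Set.indicator_of_mem (show r ∈ Set.Ioc (0:ℝ) 2 from ⟨hu.trans hr.1, hr.2⟩),
          Pi.mul_apply,
          ← ENNReal.ofReal_mul (by positivity)]
      · rw [Set.indicator_of_notMem hr]
        by_cases hr2 : r ∈ Set.Ioc (0:ℝ) 2
        · rw [Set.indicator_of_mem hr2, Pi.mul_apply]
          have : r ≤ u := by
            by_contra hc
            exact hr ⟨lt_of_not_ge hc, hr2.2⟩
          rw [ENNReal.ofReal_of_nonpos (by linarith : r - u ≤ 0), mul_zero]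
        · rw [Set.indicator_of_notMem hr2]
    · rw [Filter.EventuallyLE, ae_restrict_iff' measurableSet_Ioc]
      refine Eventually.of_forall fun r hr => ?_
      have := hr.1
      change 0 ≤ (r ^ 2)⁻¹ * (r - u)
      exact mul_nonneg (by positivity) (by linarith)
  have h3 := Real.one_sub_inv_le_log_of_pos (show 0 < 2 / u by positivity)
  rw [inv_div] at h3
  rw [e1, smul_eq_mul, ← ENNReal.ofReal_mul (by norm_num), ← ENNReal.ofReal_add]
  · congr 1; ring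
  · linarith
  · linarith

theorem Gm_zero : Gm 0 = ⊤ := by
  apply ENNReal.eq_top_of_forall_nnreal_le
  intro M
  set u := 2 * Real.exp (-(M:ℝ) - 1) with hu
  have hu0 : 0 < u := by positivity
  have hu2 : u ≤ 2 := by
    have : Real.exp (-(M:ℝ) - 1) ≤ 1 := Real.exp_le_one_iff.2 (by have := M.2; linarith)
    linarith
  refine le_trans ?_ (Gm_anti hu0.le)
  rw [Gm_eq hu0 hu2, hu, ← ENNReal.ofReal_coe_nnreal]
  have e : 2 / (2 * Real.exp (-(M:ℝ) - 1)) = Real.exp (M + 1) := by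
    rw [div_mul_cancel_left₀ two_ne_zero, ← Real.exp_neg]
    congr 1; ring
  rw [e, Real.log_exp]
  apply ENNReal.ofReal_le_ofReal
  linarith

theorem k2_mix {x y : ℝ} (hx : |x| ≤ 1) (hy : |y| ≤ 1) : k2 x y = Gm |x - y| := by
  by_cases h : x = y
  · rw [h, k2_self, sub_self, abs_zero, Gm_zero]
  · rw [k2_ne h, Gm_eq (abs_pos.2 (sub_ne_zero.2 h))]
    have := abs_sub x y
    linarith

theorem Gm_prod (x y : ℝ) : Gm |x - y| = ∫⁻ ω, gw ω x * gw ω y ∂(rho.prod volume) := by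
  have m2 : ∀ x, Measurable fun ω => gw ω x := fun x =>
    measurable_gw.comp (measurable_id.prodMk measurable_const)
  rw [lintegral_prod (fun ω => gw ω x * gw ω y) ((m2 x).mul (m2 y)).aemeasurable]
  unfold Gm
  exact lintegral_congr fun r => (gw_int r x y).symm

theorem k2_congr {α β : Measure ℝ} (hα : ∀ᵐ x ∂α, |x| ≤ 1) (hβ : ∀ᵐ x ∂β, |x| ≤ 1) :
    ∫⁻ x, ∫⁻ y, k2 x y ∂β ∂α = ∫⁻ x, ∫⁻ y, ∫⁻ ω, gw ω x * gw ω y ∂(rho.prod volume) ∂β ∂α := by
  apply lintegral_congr_ae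
  filter_upwards [hα] with x hx
  apply lintegral_congr_ae
  filter_upwards [hβ] with y hy
  rw [k2_mix hx hy, Gm_prod]

theorem pd2 {α β : Measure ℝ} [SFinite α] [SFinite β] (hα : ∀ᵐ x ∂α, |x| ≤ 1) (hβ : ∀ᵐ x ∂β, |x| ≤ 1) :
    2 * ∫⁻ x, ∫⁻ y, k2 x y ∂β ∂α ≤
      ∫⁻ x, ∫⁻ y, k2 x y ∂α ∂α + ∫⁻ x, ∫⁻ y, k2 x y ∂β ∂β := by
  rw [k2_congr hα hβ, k2_congr hα hα, k2_congr hβ hβ]
  exact pd_gen _ α β gw measurable_gw

/-- The law of the coding map. -/
noncomputable def law (lam : ℕ → ℝ) : Measure ℝ := Measure.map (Q lam) (volume : Measure UnitAddCircle)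

theorem vol_prob : IsProbabilityMeasure (volume : Measure UnitAddCircle) :=
  ⟨UnitAddCircle.measure_univ⟩

theorem law_prob {lam : ℕ → ℝ} (h : ∀ k, 2 ≤ lam k) : IsProbabilityMeasure (law lam) := by
  have := vol_prob
  exact Measure.isProbabilityMeasure_map (measurable_Q h).aemeasurable

theorem law_pot {lam : ℕ → ℝ} (h : ∀ k, 2 ≤ lam k) (x : ℝ) : ∫⁻ y, k2 x y ∂(law lam) = U lam x := by
  unfold law U
  have m : Measurable fun y => k2 x y := measurable_k2.comp (measurable_const.prodMk measurable_id)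
  rw [lintegral_map m (measurable_Q h)]

theorem measurable_U {lam : ℕ → ℝ} (h : ∀ k, 2 ≤ lam k) : Measurable (U lam) := by
  have := law_prob h
  have : U lam = fun x => ∫⁻ y, k2 x y ∂(law lam) := by
    funext x; rw [law_pot h]
  rw [this]
  exact measurable_k2.lintegral_prod_right'

theorem law_en {lam : ℕ → ℝ} (h : ∀ k, 2 ≤ lam k) :
    ∫⁻ x, ∫⁻ y, k2 x y ∂(law lam) ∂(law lam) = En lam := by
  simp only [law_pot h]
  unfold law En
  rw [lintegral_map (measurable_U h) (measurable_Q h)]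
  rfl

theorem law_supp {lam : ℕ → ℝ} (h : ∀ k, 2 ≤ lam k) : ∀ᵐ x ∂(law lam), |x| ≤ 1 := by
  unfold law
  have m : MeasurableSet {x : ℝ | |x| ≤ 1} := measurableSet_le measurable_id.abs measurable_const
  rw [ae_map_iff (measurable_Q h).aemeasurable m]
  exact Eventually.of_forall (Q_mem h)

theorem En_min {lam : ℕ → ℝ} (h : ∀ k, 2 ≤ lam k) {C : ℝ} (hC : ∀ k, Real.log (2 * lam k) ≤ C)
    (ν : Measure ℝ) [IsProbabilityMeasure ν] (hν : ∀ᵐ x ∂ν, ∀ s, |Fs s lam x| ≤ 1) :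
    En lam ≤ ∫⁻ x, ∫⁻ y, k2 x y ∂ν ∂ν := by
  have := law_prob h
  set V := ⨆ n, Vn n lam with hV
  have hVt : V ≠ ⊤ := ne_top_of_le_ne_top ENNReal.ofReal_ne_top (iSup_le fun n => Vn_le n C hC)
  have h1 : En lam ≤ V := En_le h I0_ne_top
  have hν1 : ∀ᵐ x ∂ν, |x| ≤ 1 := hν.mono fun x hx => hx 0
  have h2 : V ≤ ∫⁻ x, ∫⁻ y, k2 x y ∂(law lam) ∂ν := by
    have : ∫⁻ _ : ℝ, V ∂ν = V := by simp
    rw [← this]
    apply lintegral_mono_ae
    filter_upwards [hν] with x hx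
    rw [law_pot h]
    exact iSup_le fun n => U_ge n h hx
  have h3 := pd2 hν1 (law_supp h)
  rw [law_en h] at h3
  have h4 : V + V ≤ (∫⁻ x, ∫⁻ y, k2 x y ∂ν ∂ν) + V := by
    calc V + V = 2 * V := (two_mul V).symm
      _ ≤ 2 * ∫⁻ x, ∫⁻ y, k2 x y ∂(law lam) ∂ν := by gcongr
      _ ≤ (∫⁻ x, ∫⁻ y, k2 x y ∂ν ∂ν) + En lam := h3
      _ ≤ _ := by gcongr
  exact h1.trans ((ENNReal.add_le_add_iff_right hVt).1 h4)

theorem En_lt_top {lam : ℕ → ℝ} (h : ∀ k, 2 ≤ lam k) {C : ℝ} (hC : ∀ k, Real.log (2 * lam k) ≤ C) :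
    En lam < ⊤ :=
  lt_of_le_of_lt (En_le h I0_ne_top) (lt_of_le_of_lt (iSup_le fun n => Vn_le n C hC) ENNReal.ofReal_lt_top)

end Pool.Agent.Helper919.CE
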