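import Pool.Agent.Helper919.CE.Energy2

set_option autoImplicit false

open MeasureTheory Filter Topology

namespace Pool.Agent.Helper919.CE

theorem Fs_continuous (s : ℕ) : ∀ (lam : ℕ → ℝ), Continuous (Fs s lam) := by
  induction s with
  | zero => intro lam; exact continuous_id
  | succ s ih =>
    intro lam
    have h : Continuous fun x => fq (lam 0) x := by unfold fq; fun_prop
    exact (ih (sh lam)).comp h

theorem fq_neg (l x : ℝ) : fq l (-x) = fq l x := by unfold fq; ring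

theorem fq_one (l : ℝ) : fq l 1 = 1 := by unfold fq; ring

theorem Fs_one (s : ℕ) : ∀ (lam : ℕ → ℝ), Fs s lam 1 = 1 := by
  induction s with
  | zero => intro lam; rfl
  | succ s ih => intro lam; rw [Fs_succ, fq_one, ih]

theorem Fs_neg_abs (s : ℕ) (lam : ℕ → ℝ) (x : ℝ) : |Fs s lam (-x)| = |Fs s lam x| := by
  cases s with
  | zero => rw [Fs_zero, Fs_zero, abs_neg]
  | succ s => rw [Fs_succ, Fs_succ, fq_neg]

theorem br_fq {l x : ℝ} (hl : 2 ≤ l) (hx : 0 ≤ x) : br l (fq l x) = x := by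
  unfold br fq
  have : (l * x ^ 2 - (l - 1) + (l - 1)) / l = x ^ 2 := by
    field_simp; ring
  rw [this, Real.sqrt_sq hx]

theorem br_mono {l v w : ℝ} (hl : 2 ≤ l) (h : v ≤ w) : br l v ≤ br l w := by
  unfold br
  apply Real.sqrt_le_sqrt
  apply div_le_div_of_nonneg_right _ (by linarith)
  linarith

theorem no_interval (n : ℕ) : ∀ {lam : ℕ → ℝ}, (∀ k, 2 < lam k) → ∀ {x y : ℝ}, x ≤ y →
    (∀ w ∈ Set.Icc x y, ∀ s, |Fs s lam w| ≤ 1) → Real.arccos x - Real.arccos y ≤ Real.pi / 2 ^ n := by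
  induction n with
  | zero =>
    intro lam _ x y _ _
    have h1 := Real.arccos_le_pi x
    have h2 := Real.arccos_nonneg y
    rw [pow_zero, div_one]; linarith
  | succ n ih =>
    have pos : ∀ {lam : ℕ → ℝ}, (∀ k, 2 < lam k) → ∀ {x y : ℝ}, x ≤ y → 0 ≤ x →
        (∀ w ∈ Set.Icc x y, ∀ s, |Fs s lam w| ≤ 1) →
        Real.arccos x - Real.arccos y ≤ Real.pi / 2 ^ (n + 1) := by
      intro lam h x y hxy hx0 hK
      have hl := (h 0).le
      have hfx := abs_le.1 (hK x ⟨le_rfl, hxy⟩ 1)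
      have hfy := abs_le.1 (hK y ⟨hxy, le_rfl⟩ 1)
      change -1 ≤ fq (lam 0) x ∧ fq (lam 0) x ≤ 1 at hfx
      change -1 ≤ fq (lam 0) y ∧ fq (lam 0) y ≤ 1 at hfy
      have hff : fq (lam 0) x ≤ fq (lam 0) y := by
        unfold fq
        have : lam 0 * x ^ 2 ≤ lam 0 * y ^ 2 := by
          apply mul_le_mul_of_nonneg_left _ (by linarith)
          exact pow_le_pow_left₀ hx0 hxy 2
        linarith
      have h1 := ih (lam := sh lam) (fun k => h (k + 1)) hff (by
        intro v hv s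
        have hv1 : -1 ≤ v := hfx.1.trans hv.1
        have hw : br (lam 0) v ∈ Set.Icc x y := by
          constructor
          · have := br_mono hl hv.1
            rwa [br_fq hl hx0] at this
          · have := br_mono hl hv.2
            rwa [br_fq hl (hx0.trans hxy)] at this
        have := hK _ hw (s + 1)
        rwa [Fs_succ, fq_br hl hv1] at this)
      have h2 := br_contr hl hfx.1 hff hfy.2
      rw [br_fq hl hx0, br_fq hl (hx0.trans hxy)] at h2
      rw [pow_succ, ← div_div]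
      linarith
    intro lam h x y hxy hK
    rcases le_or_gt 0 x with hx0 | hx0
    · exact pos h hxy hx0 hK
    rcases le_or_gt y 0 with hy0 | hy0
    · have := pos h (x := -y) (y := -x) (by linarith) (by linarith) (by
        intro w hw s
        have := hK (-w) ⟨by linarith [hw.2], by linarith [hw.1]⟩ s
        rwa [Fs_neg_abs] at this)
      rw [Real.arccos_neg, Real.arccos_neg] at this
      linarith
    · exfalso
      have := hK 0 ⟨hx0.le, hy0.le⟩ 1
      change |fq (lam 0) 0| ≤ 1 at this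
      unfold fq at this
      have h0 := h 0
      have := (abs_le.1 this).1
      nlinarith

theorem no_interval' {lam : ℕ → ℝ} (h : ∀ k, 2 < lam k) {x y : ℝ} (hxy : x < y)
    (hK : ∀ w ∈ Set.Icc x y, ∀ s, |Fs s lam w| ≤ 1) : False := by
  have h1 : Real.arccos x - Real.arccos y ≤ 0 := by
    have hlim : Tendsto (fun n : ℕ => Real.pi / 2 ^ n) atTop (𝓝 0) :=
      tendsto_const_nhds.div_atTop (tendsto_pow_atTop_atTop_of_one_lt (by norm_num))
    exact ge_of_tendsto' hlim fun n => no_interval n h hxy.le hK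
  have hx := abs_le.1 (hK x ⟨le_rfl, hxy.le⟩ 0)
  have hy := abs_le.1 (hK y ⟨hxy.le, le_rfl⟩ 0)
  rw [Fs_zero] at hx hy
  have h2 := Real.strictAntiOn_arccos ⟨hx.1, hx.2⟩ ⟨hy.1, hy.2⟩ hxy
  linarith

/-- The real filled set, placed in the complex plane. -/
def KC (lam : ℕ → ℝ) : Set ℂ := {z | z.im = 0 ∧ ∀ s, |Fs s lam z.re| ≤ 1}

theorem isClosed_KC (lam : ℕ → ℝ) : IsClosed (KC lam) := by
  unfold KC
  rw [Set.ofPred_and, Set.ofPred_forall]
  apply IsClosed.inter
  · exact isClosed_eq Complex.continuous_im continuous_const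
  · apply isClosed_iInter
    intro s
    exact isClosed_le ((Fs_continuous s lam).comp Complex.continuous_re).abs continuous_const

theorem frontier_KC (lam : ℕ → ℝ) : frontier (KC lam) = KC lam := by
  rw [(isClosed_KC lam).frontier_eq]
  have h : interior (KC lam) = ∅ := by
    have h1 : KC lam ⊆ Complex.im ⁻¹' {0} := fun z hz => hz.1
    have h2 := interior_mono h1
    rw [Complex.interior_preimage_im, interior_singleton, Set.preimage_empty] at h2
    exact Set.subset_empty_iff.1 h2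
  rw [h, Set.sdiff_empty]

theorem isTotallyDisconnected_KC {lam : ℕ → ℝ} (h : ∀ k, 2 < lam k) : IsTotallyDisconnected (KC lam) := by
  intro t ht hpre
  have h1 : IsPreconnected (Complex.re '' t) := hpre.image _ Complex.continuous_re.continuousOn
  have h2 : ∀ x ∈ Complex.re '' t, ∀ s, |Fs s lam x| ≤ 1 := by
    rintro x ⟨z, hz, rfl⟩
    exact (ht hz).2
  have h3 : ∀ z ∈ t, ∀ w ∈ t, z.re < w.re → False := by
    intro z hz w hw hlt
    have h4 := h1.Icc_subset (Set.mem_image_of_mem _ hz) (Set.mem_image_of_mem _ hw)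
    exact no_interval' h hlt fun u hu => h2 u (h4 hu)
  intro z hz w hw
  apply Complex.ext
  · rcases lt_trichotomy z.re w.re with h4 | h4 | h4
    · exact (h3 z hz w hw h4).elim
    · exact h4
    · exact (h3 w hw z hz h4).elim
  · rw [(ht hz).1, (ht hw).1]

theorem one_mem_KC (lam : ℕ → ℝ) : (1 : ℂ) ∈ KC lam := by
  refine ⟨by simp, fun s => ?_⟩
  rw [Complex.one_re, Fs_one, abs_one]

theorem neg_one_mem_KC (lam : ℕ → ℝ) : (-1 : ℂ) ∈ KC lam := by
  refine ⟨by simp, fun s => ?_⟩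
  rw [Complex.neg_re, Complex.one_re, Fs_neg_abs, Fs_one, abs_one]

theorem norm_sub_le_two {lam : ℕ → ℝ} {z w : ℂ} (hz : z ∈ KC lam) (hw : w ∈ KC lam) :
    ‖z - w‖ = |z.re - w.re| ∧ |z.re| ≤ 1 ∧ |w.re| ≤ 1 := by
  refine ⟨?_, hz.2 0, hw.2 0⟩
  have : z - w = ((z.re - w.re : ℝ) : ℂ) := by
    apply Complex.ext
    · simp
    · simp [hz.1, hw.1]
  rw [this, Complex.norm_real, Real.norm_eq_abs]

theorem isBounded_KC (lam : ℕ → ℝ) : Bornology.IsBounded (KC lam) := by
  rw [isBounded_iff_forall_norm_le]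
  refine ⟨1, fun z hz => ?_⟩
  have : z = ((z.re : ℝ) : ℂ) := Complex.ext (by simp) (by simp [hz.1])
  rw [this, Complex.norm_real]
  exact hz.2 0

theorem two_le_diam (lam : ℕ → ℝ) : 2 ≤ Metric.diam (KC lam) := by
  have := Metric.dist_le_diam_of_mem (isBounded_KC lam) (one_mem_KC lam) (neg_one_mem_KC lam)
  have e : dist (1:ℂ) (-1) = 2 := by
    rw [dist_eq_norm]; norm_num
  rw [e] at this
  exact this

/-- elliptic radius -/
noncomputable def er (w : ℂ) : ℝ := ‖w - 1‖ + ‖w + 1‖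

theorem two_le_er (w : ℂ) : 2 ≤ er w := by
  unfold er
  have : ‖(w + 1) - (w - 1)‖ ≤ ‖w + 1‖ + ‖w - 1‖ := norm_sub_le _ _
  have e : (w + 1) - (w - 1) = 2 := by ring
  rw [e] at this
  have e2 : ‖(2:ℂ)‖ = 2 := by norm_num
  rw [e2] at this
  linarith

theorem er_le (w : ℂ) : er w ≤ 2 * ‖w‖ + 2 := by
  unfold er
  have h1 := norm_sub_le w 1
  have h2 := norm_add_le w 1
  rw [norm_one] at h1 h2
  linarith

theorem er_real {w : ℂ} (h : er w ≤ 2) : w.im = 0 ∧ |w.re| ≤ 1 := by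
  unfold er at h
  have h1 := Complex.abs_re_le_norm (w - 1)
  have h2 := Complex.abs_re_le_norm (w + 1)
  simp only [Complex.sub_re, Complex.add_re, Complex.one_re] at h1 h2
  have h3 := le_abs_self (w.re + 1)
  have h4 := neg_abs_le (w.re - 1)
  have h5 := le_abs_self (w.re - 1)
  have h6 := neg_abs_le (w.re + 1)
  constructor
  · by_contra hne
    have h7 : |(w + 1).re| < ‖w + 1‖ := Complex.abs_re_lt_norm.2 (by simpa using hne)
    simp only [Complex.add_re, Complex.one_re] at h7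
    linarith
  · rw [abs_le]
    constructor <;> linarith

theorem er_step (l : ℝ) (hl : 2 ≤ l) (w : ℂ) :
    er w ^ 2 - 2 ≤ er ((l : ℂ) * w ^ 2 - ((l : ℂ) - 1)) := by
  unfold er
  have e1 : (l : ℂ) * w ^ 2 - ((l : ℂ) - 1) - 1 = (l : ℂ) * ((w - 1) * (w + 1)) := by ring
  have e2 : 2 * w ^ 2 = ((l : ℂ) * w ^ 2 - ((l : ℂ) - 1) + 1) - ((l - 2 : ℝ) : ℂ) * ((w - 1) * (w + 1)) := by
    push_cast; ring
  have h1 := norm_sub_le ((l : ℂ) * w ^ 2 - ((l : ℂ) - 1) + 1) (((l - 2 : ℝ) : ℂ) * ((w - 1) * (w + 1)))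
  rw [← e2, norm_mul, norm_mul, norm_mul, norm_pow, Complex.norm_real, Real.norm_eq_abs,
    abs_of_nonneg (by linarith : 0 ≤ l - 2)] at h1
  have e3 : ‖(2:ℂ)‖ = 2 := by norm_num
  rw [e3] at h1
  rw [e1, norm_mul, norm_mul, Complex.norm_real, Real.norm_eq_abs, abs_of_nonneg (by linarith : 0 ≤ l)]
  have h2 : ‖w - 1‖ ^ 2 + ‖w + 1‖ ^ 2 = 2 * ‖w‖ ^ 2 + 2 := by
    have := parallelogram_law_with_norm ℝ w 1
    rw [norm_one] at this
    nlinarith
  nlinarith

theorem er_growth {lam : ℕ → ℝ} (h : ∀ k, 2 ≤ lam k) {F : ℕ → ℂ}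
    (hF : ∀ n, F (n + 1) = (lam n : ℂ) * F n ^ 2 - ((lam n : ℂ) - 1)) (m n : ℕ) :
    4 ^ n * (er (F m) - 2) ≤ er (F (m + n)) - 2 := by
  induction n with
  | zero => simp
  | succ n ih =>
    have h1 := er_step (lam (m + n)) (h _) (F (m + n))
    rw [← hF (m + n)] at h1
    have h2 := two_le_er (F (m + n))
    rw [← add_assoc, pow_succ]
    nlinarith

theorem bdd_orbit {lam : ℕ → ℝ} (h : ∀ k, 2 ≤ lam k) {F : ℕ → ℂ}
    (hF : ∀ n, F (n + 1) = (lam n : ℂ) * F n ^ 2 - ((lam n : ℂ) - 1)) {M : ℝ} (hM : ∀ n, ‖F n‖ ≤ M)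
    (m : ℕ) : er (F m) ≤ 2 := by
  by_contra hc
  push Not at hc
  have hd : 0 < er (F m) - 2 := by linarith
  obtain ⟨n, hn⟩ := pow_unbounded_of_one_lt (2 * M / (er (F m) - 2)) (by norm_num : (1:ℝ) < 4)
  rw [div_lt_iff₀ hd] at hn
  have h1 := er_growth h hF m n
  have h2 := er_le (F (m + n))
  have h3 := hM (m + n)
  linarith

theorem orbit_real (lam : ℕ → ℝ) {F : ℕ → ℂ}
    (hF : ∀ n, F (n + 1) = (lam n : ℂ) * F n ^ 2 - ((lam n : ℂ) - 1)) (h0 : (F 0).im = 0) (n : ℕ) :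
    F n = (Fs n lam (F 0).re : ℂ) := by
  induction n with
  | zero => exact Complex.ext (by simp [Fs_zero]) (by simp [h0])
  | succ n ih =>
    rw [hF, Fs_succ', ih]
    unfold fq
    push_cast
    ring

theorem bdd_iff {lam : ℕ → ℝ} (h : ∀ k, 2 ≤ lam k) {F : ℕ → ℂ}
    (hF : ∀ n, F (n + 1) = (lam n : ℂ) * F n ^ 2 - ((lam n : ℂ) - 1)) :
    (∃ M : ℝ, ∀ n, ‖F n‖ ≤ M) ↔ F 0 ∈ KC lam := by
  constructor
  · rintro ⟨M, hM⟩
    have h0 := er_real (bdd_orbit h hF hM 0)
    refine ⟨h0.1, fun s => ?_⟩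
    have hs := (er_real (bdd_orbit h hF hM s)).2
    rw [orbit_real lam hF h0.1 s, Complex.ofReal_re] at hs
    exact hs
  · rintro ⟨h0, h1⟩
    refine ⟨1, fun n => ?_⟩
    rw [orbit_real lam hF h0 n, Complex.norm_real]
    exact h1 n

/-- The law, placed in the complex plane. -/
noncomputable def mu (lam : ℕ → ℝ) : Measure ℂ := Measure.map (fun θ => (Q lam θ : ℂ)) (volume : Measure UnitAddCircle)

theorem measurable_QC {lam : ℕ → ℝ} (h : ∀ k, 2 ≤ lam k) : Measurable fun θ => (Q lam θ : ℂ) :=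
  Complex.measurable_ofReal.comp (measurable_Q h)

theorem mu_prob {lam : ℕ → ℝ} (h : ∀ k, 2 ≤ lam k) : IsProbabilityMeasure (mu lam) := by
  have := vol_prob
  exact Measure.isProbabilityMeasure_map (measurable_QC h).aemeasurable

theorem mu_supp {lam : ℕ → ℝ} (h : ∀ k, 2 ≤ lam k) : mu lam (KC lam)ᶜ = 0 := by
  unfold mu
  rw [Measure.map_apply (measurable_QC h) (isClosed_KC lam).measurableSet.compl]
  have : (fun θ => (Q lam θ : ℂ)) ⁻¹' (KC lam)ᶜ = ∅ := by
    ext θ
    simp only [Set.mem_preimage, Set.mem_compl_iff, Set.mem_empty_iff_false, iff_false, not_not]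
    exact ⟨by simp, fun s => by rw [Complex.ofReal_re]; exact Fs_Q s h θ⟩
  rw [this, measure_empty]

theorem law_noAtoms {lam : ℕ → ℝ} (h : ∀ k, 2 ≤ lam k) {C : ℝ} (hC : ∀ k, Real.log (2 * lam k) ≤ C) (x : ℝ) :
    law lam {x} = 0 := by
  by_contra hne
  have h1 := En_lt_top h hC
  rw [← law_en h] at h1
  have h2 : ∫⁻ a in {x}, ∫⁻ b in {x}, k2 a b ∂(law lam) ∂(law lam) ≤
      ∫⁻ a, ∫⁻ b, k2 a b ∂(law lam) ∂(law lam) :=
    (setLIntegral_le_lintegral _ _).trans (lintegral_mono fun a => setLIntegral_le_lintegral _ _)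
  rw [lintegral_singleton, lintegral_singleton, k2_self, ENNReal.top_mul hne, ENNReal.top_mul hne] at h2
  exact absurd h1 (not_lt.2 h2)

theorem mu_noAtoms {lam : ℕ → ℝ} (h : ∀ k, 2 ≤ lam k) {C : ℝ} (hC : ∀ k, Real.log (2 * lam k) ≤ C) :
    NullSingletonClass (mu lam) := by
  refine ⟨fun z => ?_⟩
  unfold mu
  rw [Measure.map_apply (measurable_QC h) (measurableSet_singleton z)]
  have h1 := law_noAtoms h hC z.re
  unfold law at h1
  rw [Measure.map_apply (measurable_Q h) (measurableSet_singleton _)] at h1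
  refine measure_mono_null ?_ h1
  intro θ hθ
  simp only [Set.mem_preimage, Set.mem_singleton_iff] at hθ ⊢
  rw [← hθ, Complex.ofReal_re]

/-- The kernel used in the problem statement. -/
theorem kerD {lam : ℕ → ℝ} {D : ℝ} (hD : 2 ≤ D) {z w : ℂ} (hz : z ∈ KC lam) (hw : w ∈ KC lam) (hzw : z ≠ w) :
    ENNReal.ofReal (Real.log (D / ‖z - w‖)) = ENNReal.ofReal (Real.log (D / 2)) + k2 z.re w.re := by
  obtain ⟨e, h1, h2⟩ := norm_sub_le_two hz hw
  have hne : z.re ≠ w.re := by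
    intro h
    exact hzw (Complex.ext h (by rw [hz.1, hw.1]))
  have hpos : 0 < |z.re - w.re| := abs_pos.2 (sub_ne_zero.2 hne)
  have hle : |z.re - w.re| ≤ 2 := by
    have := abs_sub z.re w.re
    linarith
  rw [e, k2_ne hne, ← ENNReal.ofReal_add]
  · congr 1
    rw [← Real.log_mul (by positivity) (by positivity)]
    congr 1
    field_simp
  · apply Real.log_nonneg
    rw [le_div_iff₀ two_pos]; linarith
  · apply Real.log_nonneg
    rw [le_div_iff₀ hpos]; linarith

theorem energyD {lam : ℕ → ℝ} {D : ℝ} (hD : 2 ≤ D) (ν : Measure ℂ) [IsProbabilityMeasure ν] [NullSingletonClass ν]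
    (hν : ν (KC lam)ᶜ = 0) :
    ∫⁻ z, ∫⁻ w, ENNReal.ofReal (Real.log (D / ‖z - w‖)) ∂ν ∂ν =
      ENNReal.ofReal (Real.log (D / 2)) +
        ∫⁻ x, ∫⁻ y, k2 x y ∂(Measure.map Complex.re ν) ∂(Measure.map Complex.re ν) := by
  have hK : ∀ᵐ z ∂ν, z ∈ KC lam := by
    rw [ae_iff]; exact hν
  have hm : Measurable fun x => ∫⁻ y, k2 x y ∂(Measure.map Complex.re ν) :=
    measurable_k2.lintegral_prod_right'
  rw [lintegral_map hm Complex.measurable_re]
  have e1 : ∀ᵐ z ∂ν, ∫⁻ w, ENNReal.ofReal (Real.log (D / ‖z - w‖)) ∂ν =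
      ENNReal.ofReal (Real.log (D / 2)) + ∫⁻ y, k2 z.re y ∂(Measure.map Complex.re ν) := by
    filter_upwards [hK] with z hz
    have m : Measurable fun y => k2 z.re y := measurable_k2.comp (measurable_const.prodMk measurable_id)
    rw [lintegral_map m Complex.measurable_re]
    have e2 : ∀ᵐ w ∂ν, ENNReal.ofReal (Real.log (D / ‖z - w‖)) =
        ENNReal.ofReal (Real.log (D / 2)) + k2 z.re w.re := by
      have : ∀ᵐ w ∂ν, w ≠ z := by
        rw [ae_iff]; simp
      filter_upwards [hK, this] with w hw hwz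
      exact kerD hD hz hw (Ne.symm hwz)
    rw [lintegral_congr_ae e2, lintegral_add_left measurable_const]
    simp
  rw [lintegral_congr_ae e1, lintegral_add_left measurable_const]
  simp

theorem map_re_mu {lam : ℕ → ℝ} (h : ∀ k, 2 ≤ lam k) : Measure.map Complex.re (mu lam) = law lam := by
  unfold mu law
  rw [Measure.map_map Complex.measurable_re (measurable_QC h)]
  rfl

theorem energy_mu {lam : ℕ → ℝ} (h : ∀ k, 2 ≤ lam k) {C : ℝ} (hC : ∀ k, Real.log (2 * lam k) ≤ C)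
    {D : ℝ} (hD : 2 ≤ D) :
    ∫⁻ z, ∫⁻ w, ENNReal.ofReal (Real.log (D / ‖z - w‖)) ∂(mu lam) ∂(mu lam) =
      ENNReal.ofReal (Real.log (D / 2)) + En lam := by
  have h1 := mu_prob h
  have h2 := mu_noAtoms h hC
  rw [energyD hD (mu lam) (mu_supp h), map_re_mu h, law_en h]

theorem energy_min {lam : ℕ → ℝ} (h : ∀ k, 2 ≤ lam k) {C : ℝ} (hC : ∀ k, Real.log (2 * lam k) ≤ C)
    {D : ℝ} (hD : 2 ≤ D) (ν : Measure ℂ) [IsProbabilityMeasure ν] [NullSingletonClass ν] (hν : ν (KC lam)ᶜ = 0) :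
    ENNReal.ofReal (Real.log (D / 2)) + En lam ≤
      ∫⁻ z, ∫⁻ w, ENNReal.ofReal (Real.log (D / ‖z - w‖)) ∂ν ∂ν := by
  rw [energyD hD ν hν]
  have : IsProbabilityMeasure (Measure.map Complex.re ν) :=
    Measure.isProbabilityMeasure_map Complex.measurable_re.aemeasurable
  gcongr
  apply En_min h hC
  have hK : ∀ᵐ z ∂ν, z ∈ KC lam := by
    rw [ae_iff]; exact hν
  have m : MeasurableSet {x : ℝ | ∀ s, |Fs s lam x| ≤ 1} := by
    rw [Set.ofPred_forall]
    apply MeasurableSet.iInter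
    intro s
    exact measurableSet_le (Fs_continuous s lam).measurable.abs measurable_const
  rw [ae_map_iff Complex.measurable_re.aemeasurable m]
  exact hK.mono fun z hz => hz.2

end Pool.Agent.Helper919.CE
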