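import Pool.Agent.Helper919.CE.Basic

set_option autoImplicit false

open Filter Topology

namespace Pool.Agent.Helper919.CE

/-- Composition of levels along a list. -/
noncomputable def comp : List (Bool × ℝ) → (ℝ → ℝ) → ℝ → ℝ
  | [], N => N
  | (q :: t), N => W q.1 q.2 (comp t N)

theorem comp_append (s t : List (Bool × ℝ)) (N : ℝ → ℝ) :
    comp (s ++ t) N = comp s (comp t N) := by
  induction s with
  | nil => rfl
  | cons q s ih => simp only [List.cons_append, comp, ih]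

theorem Cl.comp {N : ℝ → ℝ} (h : Cl N) {t : List (Bool × ℝ)} (ht : ∀ q ∈ t, 2 < q.2) :
    Cl (comp t N) := by
  induction t with
  | nil => exact h
  | cons q t ih =>
    exact (ih fun x hx => ht x (List.mem_cons_of_mem _ hx)).W (ht q List.mem_cons_self) q.1

theorem tendsto_W {ι : Type*} {F : Filter ι} {G : ι → ℝ → ℝ} {N : ℝ → ℝ} (hN : Cl N)
    (h : ∀ z, 1 ≤ z → Tendsto (fun i => G i z) F (𝓝 (N z))) (b : Bool) {l : ℝ} (hl : 2 < l)
    {z : ℝ} (hz : 1 ≤ z) : Tendsto (fun i => W b l (G i) z) F (𝓝 (W b l N z)) := by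
  have h1 := h _ (one_le_fq hl.le hz)
  have h2 := h (l - 1) (by linarith)
  cases b
  · simp only [W_false]
    exact (h1.add h2).div_const _
  · simp only [W_true]
    exact (h1.const_mul z).div (h1.add h2) (hN.den_pos hl hz).ne'

theorem tendsto_comp {ι : Type*} {F : Filter ι} {G : ι → ℝ → ℝ} {N : ℝ → ℝ} (hN : Cl N)
    (h : ∀ z, 1 ≤ z → Tendsto (fun i => G i z) F (𝓝 (N z))) {t : List (Bool × ℝ)}
    (ht : ∀ q ∈ t, 2 < q.2) :
    ∀ z, 1 ≤ z → Tendsto (fun i => comp t (G i) z) F (𝓝 (comp t N z)) := by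
  induction t with
  | nil => exact h
  | cons q t ih =>
    intro z hz
    have ht' : ∀ x ∈ t, 2 < x.2 := fun x hx => ht x (List.mem_cons_of_mem _ hx)
    exact tendsto_W (hN.comp ht') (ih ht') q.1 (ht q List.mem_cons_self) hz

theorem fq_two (z : ℝ) : fq 2 z = 2 * z ^ 2 - 1 := by unfold fq; ring

theorem u_fq_two {z : ℝ} (hz : 1 ≤ z) : u (fq 2 z) = 2 * z * u z := by
  unfold u
  rw [fq_two]
  have h : (2 * z ^ 2 - 1) ^ 2 - 1 = (2 * z) ^ 2 * (z ^ 2 - 1) := by ring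
  rw [h, Real.sqrt_mul (by positivity), Real.sqrt_sq (by linarith)]

theorem u_pos {z : ℝ} (hz : 1 < z) : 0 < u z := by
  unfold u
  apply Real.sqrt_pos.2
  nlinarith

/-- `I` even steps at `l = 2`. -/
noncomputable def E2 : ℕ → (ℝ → ℝ) → ℝ → ℝ
  | 0, N => N
  | (n + 1), N => W false 2 (E2 n N)

theorem E2_one (n : ℕ) (N : ℝ → ℝ) : E2 n N 1 = N 1 := by
  induction n with
  | zero => rfl
  | succ n ih =>
    rw [E2, W_false, fq_two]
    norm_num
    rw [ih]

/-- The orbit of `z` under the quadratic map at `l = 2`. -/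
noncomputable def orb (z : ℝ) : ℕ → ℝ
  | 0 => z
  | (n + 1) => orb (fq 2 z) n

theorem orb_ge {n : ℕ} : ∀ {z : ℝ}, 1 ≤ z → z ^ (n + 1) ≤ orb z n := by
  induction n with
  | zero => intro z hz; simp [orb]
  | succ n ih =>
    intro z hz
    have h1 : z ^ 2 ≤ fq 2 z := by rw [fq_two]; nlinarith
    calc z ^ (n + 1 + 1) ≤ (z ^ 2) ^ (n + 1) := by
          rw [← pow_mul]
          exact pow_le_pow_right₀ hz (by omega)
      _ ≤ (fq 2 z) ^ (n + 1) := pow_le_pow_left₀ (by positivity) h1 _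
      _ ≤ _ := ih (one_le_fq le_rfl hz)

theorem orb_gt {n : ℕ} {z : ℝ} (hz : 1 < z) : 1 < orb z n :=
  lt_of_lt_of_le (one_lt_pow₀ hz (by omega)) (orb_ge hz.le)

theorem E2_formula (n : ℕ) (N : ℝ → ℝ) : ∀ {z : ℝ}, 1 < z →
    E2 n N z = N 1 * z + u z * ((N (orb z n) - N 1 * orb z n) / u (orb z n)) := by
  induction n with
  | zero =>
    intro z hz
    have := (u_pos hz).ne'
    simp only [E2, orb]
    field_simp
    ring
  | succ n ih =>
    intro z hz
    have hf := one_lt_fq (le_refl (2:ℝ)) hz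
    rw [E2, W_false, ih hf, u_fq_two hz.le]
    have e1 : (2:ℝ) - 1 = 1 := by norm_num
    rw [e1, E2_one]
    have hz0 : z ≠ 0 := by positivity
    simp only [orb]
    generalize (N (orb (fq 2 z) n) - N 1 * orb (fq 2 z) n) / u (orb (fq 2 z) n) = X
    rw [fq_two]
    field_simp
    ring

theorem tendsto_orb {z : ℝ} (hz : 1 < z) : Tendsto (orb z) atTop atTop := by
  apply tendsto_atTop_mono (fun n => orb_ge hz.le)
  exact (tendsto_pow_atTop_atTop_of_one_lt hz).comp (tendsto_add_atTop_nat 1)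

theorem tendsto_u_div : Tendsto (fun z : ℝ => u z / z) atTop (𝓝 1) := by
  have h1 : Tendsto (fun z : ℝ => (1:ℝ) - (z⁻¹) ^ 2) atTop (𝓝 (1 - 0 ^ 2)) := by
    apply Tendsto.const_sub
    apply Tendsto.pow
    exact tendsto_inv_atTop_zero
  have h2 : Tendsto (fun z : ℝ => Real.sqrt (1 - (z⁻¹) ^ 2)) atTop (𝓝 1) := by
    have := (Real.continuous_sqrt.tendsto _).comp h1
    rw [show Real.sqrt (1 - 0 ^ 2) = 1 by norm_num] at this
    exact this
  apply h2.congr'
  filter_upwards [eventually_gt_atTop 1] with z hz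
  have hz0 : 0 < z := by linarith
  have e : u z = Real.sqrt (1 - (z⁻¹) ^ 2) * z := by
    unfold u
    have e2 : z ^ 2 - 1 = (1 - (z⁻¹) ^ 2) * z ^ 2 := by field_simp
    rw [e2, Real.sqrt_mul' _ (by positivity), Real.sqrt_sq hz0.le]
  rw [e, mul_div_assoc, div_self hz0.ne', mul_one]

theorem tendsto_E2 {G : ℕ → ℝ → ℝ} {p : ℝ} (hG : ∀ n, Cl (G n))
    (h1 : Tendsto (fun n => G n 1) atTop (𝓝 p)) {z : ℝ} (hz : 1 ≤ z) :
    Tendsto (fun n => E2 n (G n) z) atTop (𝓝 (Np p z)) := by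
  rcases eq_or_lt_of_le hz with rfl | hz
  · simp only [E2_one, Np_one]; exact h1
  have ho := tendsto_orb hz
  have hu : Tendsto (fun n => u (orb z n) / orb z n) atTop (𝓝 1) := tendsto_u_div.comp ho
  have hu' : Tendsto (fun n => orb z n / u (orb z n)) atTop (𝓝 1) := by
    have := hu.inv₀ one_ne_zero
    simpa using this
  have hN : Tendsto (fun n => G n (orb z n) / u (orb z n)) atTop (𝓝 1) := by
    have hlow : Tendsto (fun n => orb z n / u (orb z n) * (1 - (1 / orb z n) ^ 2)) atTop (𝓝 1) := by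
      have h3 : Tendsto (fun n => (1:ℝ) - (1 / orb z n) ^ 2) atTop (𝓝 (1 - 0 ^ 2)) := by
        apply Tendsto.const_sub
        apply Tendsto.pow
        have := (tendsto_inv_atTop_zero (𝕜 := ℝ)).comp ho
        simp only [one_div]
        exact this
      have := hu'.mul h3
      simpa using this
    refine tendsto_of_tendsto_of_tendsto_of_le_of_le hlow hu' ?_ ?_
    · intro n
      have hp := orb_gt (n := n) hz
      have hup := u_pos hp
      have hp0 : (0:ℝ) < orb z n := by linarith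
      simp only
      rw [le_div_iff₀ hup]
      have := (hG n (orb z n) hp.le).1
      have e : orb z n / u (orb z n) * (1 - (1 / orb z n) ^ 2) * u (orb z n) = orb z n - 1 / orb z n := by
        field_simp
      rw [e]; exact this
    · intro n
      have hp := orb_gt (n := n) hz
      have hup := u_pos hp
      simp only
      exact div_le_div_of_nonneg_right (hG n (orb z n) hp.le).2 hup.le
  have key : Tendsto (fun n => G n 1 * z +
      u z * (G n (orb z n) / u (orb z n) - G n 1 * (orb z n / u (orb z n)))) atTop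
      (𝓝 (p * z + u z * (1 - p * 1))) :=
    (h1.mul_const z).add ((hN.sub (h1.mul hu')).const_mul _)
  have e0 : Np p z = p * z + u z * (1 - p * 1) := by unfold Np; ring
  rw [e0]
  refine key.congr fun n => ?_
  rw [E2_formula n (G n) hz, sub_div, mul_div_assoc]

/-- Joint continuity in a parameter. -/
def JC (G : ℝ → ℝ → ℝ) : Prop :=
  ContinuousOn (fun q : ℝ × ℝ => G q.1 q.2) (Set.Ici 0 ×ˢ Set.Ici 1) ∧ ∀ d, 0 ≤ d → Cl (G d)

theorem JC.tiny {G : ℝ → ℝ → ℝ} (h : JC G) : JC (fun d => W false (2 + d) (G d)) := by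
  refine ⟨?_, fun d hd => (h.2 d hd).W_false (by linarith)⟩
  simp only [W_false]
  have m1 : Set.MapsTo (fun q : ℝ × ℝ => (q.1, fq (2 + q.1) q.2)) (Set.Ici 0 ×ˢ Set.Ici 1)
      (Set.Ici 0 ×ˢ Set.Ici 1) := by
    rintro ⟨d, z⟩ ⟨hd, hz⟩
    simp only [Set.mem_Ici] at hd hz
    exact ⟨hd, one_le_fq (by simp only; linarith) hz⟩
  have m2 : Set.MapsTo (fun q : ℝ × ℝ => (q.1, 2 + q.1 - 1)) (Set.Ici 0 ×ˢ Set.Ici 1)
      (Set.Ici (0:ℝ) ×ˢ Set.Ici (1:ℝ)) := by
    rintro ⟨d, z⟩ ⟨hd, hz⟩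
    simp only [Set.mem_Ici] at hd hz
    exact ⟨hd, by simp only [Set.mem_Ici]; linarith⟩
  have c1 : ContinuousOn (fun q : ℝ × ℝ => G q.1 (fq (2 + q.1) q.2)) (Set.Ici 0 ×ˢ Set.Ici 1) :=
    h.1.comp (by unfold fq; fun_prop) m1
  have c2 : ContinuousOn (fun q : ℝ × ℝ => G q.1 (2 + q.1 - 1)) (Set.Ici 0 ×ˢ Set.Ici 1) :=
    h.1.comp (by fun_prop) m2
  refine (c1.add c2).div (by fun_prop) ?_
  rintro ⟨d, z⟩ ⟨hd, hz⟩
  simp only [Set.mem_Ici] at hd hz
  positivity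

theorem JC.fixed {G : ℝ → ℝ → ℝ} (h : JC G) (b : Bool) {l : ℝ} (hl : 2 < l) :
    JC (fun d => W b l (G d)) := by
  refine ⟨?_, fun d hd => (h.2 d hd).W hl b⟩
  have m1 : Set.MapsTo (fun q : ℝ × ℝ => (q.1, fq l q.2)) (Set.Ici 0 ×ˢ Set.Ici 1)
      (Set.Ici 0 ×ˢ Set.Ici 1) := by
    rintro ⟨d, z⟩ ⟨hd, hz⟩
    simp only [Set.mem_Ici] at hd hz
    exact ⟨hd, one_le_fq hl.le hz⟩
  have m2 : Set.MapsTo (fun q : ℝ × ℝ => (q.1, l - 1)) (Set.Ici 0 ×ˢ Set.Ici 1)
      (Set.Ici (0:ℝ) ×ˢ Set.Ici (1:ℝ)) := by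
    rintro ⟨d, z⟩ ⟨hd, hz⟩
    simp only [Set.mem_Ici] at hd hz
    exact ⟨hd, by simp only [Set.mem_Ici]; linarith⟩
  have c1 : ContinuousOn (fun q : ℝ × ℝ => G q.1 (fq l q.2)) (Set.Ici 0 ×ˢ Set.Ici 1) :=
    h.1.comp (by unfold fq; fun_prop) m1
  have c2 : ContinuousOn (fun q : ℝ × ℝ => G q.1 (l - 1)) (Set.Ici 0 ×ˢ Set.Ici 1) :=
    h.1.comp (by fun_prop) m2
  cases b
  · simp only [W_false]
    refine (c1.add c2).div (by fun_prop) ?_
    rintro ⟨d, z⟩ ⟨hd, hz⟩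
    simp only [Set.mem_Ici] at hd hz
    have : 0 < l * z := by positivity
    exact this.ne'
  · simp only [W_true]
    refine (continuousOn_snd.mul c1).div (c1.add c2) ?_
    rintro ⟨d, z⟩ ⟨hd, hz⟩
    simp only [Set.mem_Ici] at hd hz
    exact ((h.2 d hd).den_pos hl hz).ne'

theorem JC.tendsto {G : ℝ → ℝ → ℝ} (h : JC G) {z : ℝ} (hz : 1 ≤ z) :
    Tendsto (fun d => G d z) (𝓝[>] 0) (𝓝 (G 0 z)) := by
  have h1 := h.1 (0, z) ⟨by simp, hz⟩
  have h2 : Tendsto (fun d : ℝ => ((d, z) : ℝ × ℝ)) (𝓝[>] 0)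
      (𝓝[Set.Ici 0 ×ˢ Set.Ici 1] (0, z)) := by
    apply tendsto_nhdsWithin_iff.2
    constructor
    · have : Continuous fun d : ℝ => ((d, z) : ℝ × ℝ) := by fun_prop
      exact (this.tendsto 0).mono_left nhdsWithin_le_nhds
    · filter_upwards [self_mem_nhdsWithin] with d hd
      exact ⟨Set.mem_Ici.2 (le_of_lt hd), hz⟩
  exact h1.tendsto.comp h2

theorem jc_const {N : ℝ → ℝ} (hN : Cl N) (hc : ContinuousOn N (Set.Ici 1)) : JC (fun _ => N) := by
  refine ⟨?_, fun _ _ => hN⟩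
  exact hc.comp continuousOn_snd fun q hq => hq.2

theorem continuous_Np (p : ℝ) : Continuous (Np p) := by
  unfold Np u
  fun_prop

end Pool.Agent.Helper919.CE
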