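import Pool.Agent.Helper919.CE.Seq

set_option autoImplicit false

open Polynomial

namespace Pool.Agent.Helper919.CE

theorem Nf_pos (n : ℕ) : ∀ {lam : ℕ → ℝ}, (∀ k, 2 < lam k) → ∀ {z : ℝ}, 1 ≤ z → 0 < Nf n lam z := by
  induction n using Nat.strong_induction_on with
  | _ n ih =>
    intro lam h z hz
    have h0 := h 0
    rcases Nat.eq_zero_or_pos n with rfl | hn
    · rw [Nf_zero]; linarith
    · rw [Nf_eq n (by linarith : lam 0 ≠ 0)]
      have hl' : ∀ k, 2 < sh lam k := fun k => h (k + 1)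
      have h1 := ih (n / 2) (by omega) hl' (one_le_fq h0.le hz)
      have h2 := ih (n / 2) (by omega) hl' (z := lam 0 - 1) (by linarith)
      have hz0 : 0 < z := by linarith
      cases n.bodd
      · rw [W_false]; positivity
      · rw [W_true]; positivity

theorem yv_odd (lam : ℕ → ℝ) (m : ℕ) : yv lam (2 * m + 1) = Nf m (sh lam) (lam 0 - 1) / lam 0 := by
  unfold yv
  have e1 : (2 * m + 1).bodd = true := by simp
  have e2 : (2 * m + 1) / 2 = m := by omega
  rw [e1, e2, if_pos rfl]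

theorem yv_even (lam : ℕ → ℝ) (m : ℕ) :
    yv lam (2 * m) = (lam 0 - 1 - Nf m (sh lam) (lam 0 - 1)) / lam 0 := by
  unfold yv
  have e1 : (2 * m).bodd = false := by simp
  have e2 : (2 * m) / 2 = m := by omega
  rw [e1, e2, if_neg (by simp)]

theorem Nf_odd {lam : ℕ → ℝ} (h0 : lam 0 ≠ 0) (m : ℕ) (z : ℝ) : Nf (2 * m + 1) lam z =
    z * Nf m (sh lam) (fq (lam 0) z) / (Nf m (sh lam) (fq (lam 0) z) + Nf m (sh lam) (lam 0 - 1)) := by
  rw [Nf_eq _ h0]
  have e1 : (2 * m + 1).bodd = true := by simp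
  have e2 : (2 * m + 1) / 2 = m := by omega
  rw [e1, e2, W_true]

theorem Nf_even {lam : ℕ → ℝ} (h0 : lam 0 ≠ 0) (m : ℕ) (z : ℝ) : Nf (2 * m) lam z =
    (Nf m (sh lam) (fq (lam 0) z) + Nf m (sh lam) (lam 0 - 1)) / (lam 0 * z) := by
  rw [Nf_eq _ h0]
  have e1 : (2 * m).bodd = false := by simp
  have e2 : (2 * m) / 2 = m := by omega
  rw [e1, e2, W_false]

theorem Nf_rec (n : ℕ) : ∀ {lam : ℕ → ℝ}, (∀ k, 2 < lam k) → ∀ {z : ℝ}, 1 ≤ z →
    Nf (n + 1) lam z = z - yv lam (n + 1) / Nf n lam z := by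
  induction n using Nat.strong_induction_on with
  | _ n ih =>
    intro lam h z hz
    have h0 := h 0
    have h00 : lam 0 ≠ 0 := by linarith
    have hl' : ∀ k, 2 < sh lam k := fun k => h (k + 1)
    have hz0 : 0 < z := by linarith
    have hf := one_le_fq h0.le hz
    have ha : 1 ≤ lam 0 - 1 := by linarith
    rcases Nat.even_or_odd' n with ⟨m, rfl | rfl⟩
    · rw [Nf_odd h00, Nf_even h00, yv_odd]
      have h1 := Nf_pos m hl' hf
      have h2 := Nf_pos m hl' ha
      field_simp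
      ring
    · have e : 2 * m + 1 + 1 = 2 * (m + 1) := by ring
      rw [e, Nf_even h00, Nf_odd h00, yv_even, ih m (by omega) hl' hf, ih m (by omega) hl' ha]
      have h1 := Nf_pos m hl' hf
      have h2 := Nf_pos m hl' ha
      generalize Nf m (sh lam) (lam 0 - 1) = A at *
      generalize hF : Nf m (sh lam) (fq (lam 0) z) = F at *
      generalize yv (sh lam) (m + 1) = y
      unfold fq
      field_simp
      ring

theorem yv_sum {lam : ℕ → ℝ} (m : ℕ) :
    yv lam (2 * m) + yv lam (2 * m + 1) = (lam 0 - 1) / lam 0 := by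
  rw [yv_odd, yv_even]; ring

theorem yv_mul {lam : ℕ → ℝ} (h : ∀ k, 2 < lam k) (m : ℕ) :
    yv lam (2 * m + 2) * yv lam (2 * m + 1) = yv (sh lam) (m + 1) / lam 0 ^ 2 := by
  have h0 := h 0
  have hl' : ∀ k, 2 < sh lam k := fun k => h (k + 1)
  have ha : 1 ≤ lam 0 - 1 := by linarith
  have e : 2 * m + 2 = 2 * (m + 1) := by ring
  rw [yv_odd, e, yv_even, Nf_rec m hl' ha]
  have h2 := Nf_pos m hl' ha
  field_simp
  ring

theorem yv_pos (n : ℕ) : ∀ {lam : ℕ → ℝ}, (∀ k, 2 < lam k) → 0 < yv lam (n + 1) := by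
  induction n using Nat.strong_induction_on with
  | _ n ih =>
    intro lam h
    have h0 := h 0
    have hl' : ∀ k, 2 < sh lam k := fun k => h (k + 1)
    have ha : 1 ≤ lam 0 - 1 := by linarith
    rcases Nat.even_or_odd' n with ⟨m, rfl | rfl⟩
    · rw [yv_odd]
      have h2 := Nf_pos m hl' ha
      positivity
    · have h1 := yv_mul h m
      have h2 := ih m (by omega) hl'
      have h3 : 0 < yv lam (2 * m + 1) := by
        rw [yv_odd]
        have h2 := Nf_pos m hl' ha
        positivity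
      have h4 : 0 < yv lam (2 * m + 2) * yv lam (2 * m + 1) := by rw [h1]; positivity
      exact (pos_iff_pos_of_mul_pos h4).2 h3

theorem yv_zero {lam : ℕ → ℝ} : yv lam 0 = 0 := by
  have := yv_even lam 0
  rw [mul_zero, Nf_zero] at this
  rw [this]; simp

/-- The monic orthogonal polynomials. -/
noncomputable def P (lam : ℕ → ℝ) : ℕ → ℝ[X]
  | 0 => 1
  | 1 => X
  | (n + 2) => X * P lam (n + 1) - C (yv lam (n + 1)) * P lam n

theorem P_succ (lam : ℕ → ℝ) (n : ℕ) : P lam (n + 2) = X * P lam (n + 1) - C (yv lam (n + 1)) * P lam n := rfl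

theorem X_mul_P (lam : ℕ → ℝ) (n : ℕ) : X * P lam (n + 1) = P lam (n + 2) + C (yv lam (n + 1)) * P lam n := by
  rw [P_succ]; ring

/-- The quadratic polynomial. -/
noncomputable def fp (l : ℝ) : ℝ[X] := C l * X ^ 2 - C (l - 1)

theorem P_even {lam : ℕ → ℝ} (h : ∀ k, 2 < lam k) (n : ℕ) :
    P lam (2 * n) = C ((lam 0)⁻¹ ^ n) * (P (sh lam) n).comp (fp (lam 0)) ∧
    P lam (2 * (n + 1)) = C ((lam 0)⁻¹ ^ (n + 1)) * (P (sh lam) (n + 1)).comp (fp (lam 0)) := by
  have h0 : lam 0 ≠ 0 := by have := h 0; linarith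
  induction n with
  | zero =>
    constructor
    · simp [P]
    · have e1 : P lam (2 * (0 + 1)) = X * X - C (yv lam 1) := by
        change X * P lam 1 - C (yv lam (0 + 1)) * P lam 0 = _
        simp [P]
      have e2 : yv lam 1 = (lam 0 - 1) / lam 0 := by
        have := yv_sum (lam := lam) 0
        rw [mul_zero, yv_zero, zero_add, zero_add] at this
        exact this
      rw [e1, e2]
      have e3 : P (sh lam) (0 + 1) = X := rfl
      rw [e3, X_comp, fp, zero_add, pow_one, mul_sub, ← mul_assoc, ← C_mul, ← C_mul,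
        inv_mul_cancel₀ h0, C_1, one_mul, sq]
      congr 2
      field_simp
  | succ n ih =>
    refine ⟨ih.2, ?_⟩
    have e1 : 2 * (n + 1 + 1) = (2 * n + 2) + 2 := by ring
    have e2 : 2 * (n + 1) = 2 * n + 2 := by ring
    rw [e2] at ih
    have s1 := yv_sum (lam := lam) (n + 1)
    rw [e2] at s1
    have s2 := yv_mul h n
    have r1 : P lam (2 * n + 2 + 2) = (X ^ 2 - C (yv lam (2 * n + 2) + yv lam (2 * n + 3))) * P lam (2 * n + 2) -
        C (yv lam (2 * n + 2) * yv lam (2 * n + 1)) * P lam (2 * n) := by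
      rw [P_succ, P_succ lam (2 * n + 1)]
      have := X_mul_P lam (2 * n)
      have e3 : X * (X * P lam (2 * n + 1 + 1) - C (yv lam (2 * n + 1 + 1)) * P lam (2 * n + 1)) =
          X ^ 2 * P lam (2 * n + 2) - C (yv lam (2 * n + 2)) * (X * P lam (2 * n + 1)) := by ring
      rw [e3, this, C_add, C_mul]
      ring
    rw [e1, r1, s1, s2, ih.1, ih.2, P_succ, sub_comp, mul_comp, mul_comp, X_comp, C_comp]
    generalize (P (sh lam) (n + 1)).comp (fp (lam 0)) = A
    generalize (P (sh lam) n).comp (fp (lam 0)) = B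
    generalize yv (sh lam) (n + 1) = y
    unfold fp
    have k1 : (C ((lam 0)⁻¹ ^ (n + 1 + 1)) : ℝ[X]) = C ((lam 0)⁻¹) * C ((lam 0)⁻¹) * C ((lam 0)⁻¹ ^ n) := by
      rw [← C_mul, ← C_mul]; congr 1; ring
    have k2 : (C ((lam 0)⁻¹ ^ (n + 1)) : ℝ[X]) = C ((lam 0)⁻¹) * C ((lam 0)⁻¹ ^ n) := by
      rw [← C_mul]; congr 1; ring
    have k3 : (C ((lam 0 - 1) / lam 0) : ℝ[X]) = C (lam 0 - 1) * C ((lam 0)⁻¹) := by
      rw [← C_mul]; congr 1
    have k4 : (C (y / lam 0 ^ 2) : ℝ[X]) = C y * C ((lam 0)⁻¹) * C ((lam 0)⁻¹) := by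
      rw [← C_mul, ← C_mul]; congr 1; field_simp
    have k5 : (C ((lam 0)⁻¹) * C (lam 0) : ℝ[X]) = 1 := by
      rw [← C_mul, inv_mul_cancel₀ h0, C_1]
    rw [k1, k2, k3, k4]
    generalize (C ((lam 0)⁻¹ ^ n) : ℝ[X]) = D at *
    generalize (C ((lam 0)⁻¹) : ℝ[X]) = E at *
    generalize (C (lam 0) : ℝ[X]) = G at *
    generalize (C (lam 0 - 1) : ℝ[X]) = K at *
    generalize (C y : ℝ[X]) = Yy at *
    linear_combination (-(E * D * A * X ^ 2)) * k5

theorem P_comp_neg (lam : ℕ → ℝ) (n : ℕ) : (P lam n).comp (-X) = (-1) ^ n * P lam n ∧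
    (P lam (n + 1)).comp (-X) = (-1) ^ (n + 1) * P lam (n + 1) := by
  induction n with
  | zero => constructor <;> simp [P]
  | succ n ih =>
    refine ⟨ih.2, ?_⟩
    have e : n + 1 + 1 = n + 2 := rfl
    rw [e, P_succ, sub_comp, mul_comp, mul_comp, X_comp, C_comp, ih.1, ih.2]
    ring

/-- squared norms -/
noncomputable def hn (lam : ℕ → ℝ) (n : ℕ) : ℝ := ∏ k ∈ Finset.range n, yv lam (k + 1)

theorem hn_pos {lam : ℕ → ℝ} (h : ∀ k, 2 < lam k) (n : ℕ) : 0 < hn lam n :=
  Finset.prod_pos fun k _ => yv_pos k h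

theorem hn_even {lam : ℕ → ℝ} (h : ∀ k, 2 < lam k) (n : ℕ) :
    hn lam (2 * n) = (lam 0)⁻¹ ^ n * (lam 0)⁻¹ ^ n * hn (sh lam) n := by
  have h0 : lam 0 ≠ 0 := by have := h 0; linarith
  induction n with
  | zero => simp [hn]
  | succ n ih =>
    have e : 2 * (n + 1) = 2 * n + 1 + 1 := by ring
    have s := yv_mul h n
    unfold hn at *
    rw [e, Finset.prod_range_succ, Finset.prod_range_succ, ih, Finset.prod_range_succ, mul_assoc,
      mul_comm (yv lam (2 * n + 1)), s]
    have e2 : yv (sh lam) (n + 1) / lam 0 ^ 2 = (lam 0)⁻¹ * (lam 0)⁻¹ * yv (sh lam) (n + 1) := by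
      field_simp
    rw [e2, pow_succ]
    ring

variable (Lf : (ℕ → ℝ) → ℝ[X] →ₗ[ℝ] ℝ)

theorem orth_even (hcomp : ∀ lam g, (∀ k, 2 < lam k) → Lf lam (g.comp (fp (lam 0))) = Lf (sh lam) g)
    {lam : ℕ → ℝ} (h : ∀ k, 2 < lam k) (i j : ℕ) :
    Lf lam (P lam (2 * i) * P lam (2 * j)) =
      (lam 0)⁻¹ ^ i * (lam 0)⁻¹ ^ j * Lf (sh lam) (P (sh lam) i * P (sh lam) j) := by
  rw [(P_even h i).1, (P_even h j).1]
  have e : C ((lam 0)⁻¹ ^ i) * (P (sh lam) i).comp (fp (lam 0)) *
      (C ((lam 0)⁻¹ ^ j) * (P (sh lam) j).comp (fp (lam 0))) =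
      ((lam 0)⁻¹ ^ i * (lam 0)⁻¹ ^ j) • ((P (sh lam) i * P (sh lam) j).comp (fp (lam 0))) := by
    rw [mul_comp, smul_eq_C_mul, C_mul]; ring
  rw [e, map_smul, hcomp lam _ h, smul_eq_mul]

theorem orth (hcomp : ∀ lam g, (∀ k, 2 < lam k) → Lf lam (g.comp (fp (lam 0))) = Lf (sh lam) g)
    (hodd : ∀ lam g, (∀ k, 2 < lam k) → g.comp (-X) = -g → Lf lam g = 0)
    (hone : ∀ lam, (∀ k, 2 < lam k) → Lf lam 1 = 1) :
    ∀ (s n m : ℕ), n + m ≤ s → ∀ {lam : ℕ → ℝ}, (∀ k, 2 < lam k) →
      Lf lam (P lam n * P lam m) = if n = m then hn lam n else 0 := by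
  intro s
  induction s using Nat.strong_induction_on with
  | _ s ih =>
    intro n m hs lam h
    have hl' : ∀ k, 2 < sh lam k := fun k => h (k + 1)
    have h0 : lam 0 ≠ 0 := by have := h 0; linarith
    -- even-even
    have hee : ∀ i j : ℕ, 2 * i + 2 * j ≤ s → Lf lam (P lam (2 * i) * P lam (2 * j)) =
        if i = j then hn lam (2 * i) else 0 := by
      intro i j hij
      rcases Nat.eq_zero_or_pos (i + j) with h1 | h1
      · have hi : i = 0 := by omega
        have hj : j = 0 := by omega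
        subst hi hj
        simp [P, hn, hone lam h]
      · rw [orth_even Lf hcomp h, ih (i + j) (by omega) i j le_rfl hl']
        split_ifs with hij'
        · subst hij'; rw [hn_even h]
        · simp
    -- odd-odd with i ≤ j
    have hoo : ∀ i j : ℕ, i ≤ j → (2 * i + 1) + (2 * j + 1) ≤ s →
        Lf lam (P lam (2 * i + 1) * P lam (2 * j + 1)) =
        if i = j then hn lam (2 * i + 1) else 0 := by
      intro i j hle hij
      have step1 : Lf lam (P lam (2 * i) * (X * P lam (2 * j + 1))) =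
          if i = j then hn lam (2 * i + 1) else 0 := by
        rw [X_mul_P, mul_add, map_add]
        have e1 : 2 * j + 2 = 2 * (j + 1) := by ring
        rw [e1, hee i (j + 1) (by omega), if_neg (by omega)]
        have e2 : P lam (2 * i) * (C (yv lam (2 * j + 1)) * P lam (2 * j)) =
            (yv lam (2 * j + 1)) • (P lam (2 * i) * P lam (2 * j)) := by
          rw [smul_eq_C_mul]; ring
        rw [e2, map_smul, hee i j (by omega), smul_eq_mul, zero_add]
        split_ifs with hij'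
        · subst hij'
          unfold hn
          rw [Finset.prod_range_succ]; ring
        · simp
      rcases Nat.eq_zero_or_pos i with rfl | hi
      · have e : P lam (2 * 0 + 1) * P lam (2 * j + 1) = P lam (2 * 0) * (X * P lam (2 * j + 1)) := by
          have e1 : P lam (2 * 0 + 1) = X := rfl
          have e2 : P lam (2 * 0) = 1 := rfl
          rw [e1, e2]; ring
        rw [e, step1]
      · obtain ⟨i', rfl⟩ : ∃ i', i = i' + 1 := ⟨i - 1, by omega⟩
        have e : P lam (2 * (i' + 1) + 1) * P lam (2 * j + 1) =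
            P lam (2 * (i' + 1)) * (X * P lam (2 * j + 1)) -
            (yv lam (2 * i' + 2)) • (P lam (2 * i' + 1) * P lam (2 * j + 1)) := by
          have e1 : 2 * (i' + 1) + 1 = (2 * i' + 1) + 2 := by ring
          have e2 : 2 * (i' + 1) = 2 * i' + 1 + 1 := by ring
          rw [e1, P_succ, e2, smul_eq_C_mul]; ring
        rw [e, map_sub, step1, map_smul, ih (s - 2) (by omega) (2 * i' + 1) (2 * j + 1) (by omega) h,
          if_neg (by omega : ¬ (2 * i' + 1 = 2 * j + 1)), smul_zero, sub_zero]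
    rcases Nat.even_or_odd' n with ⟨i, rfl | rfl⟩ <;> rcases Nat.even_or_odd' m with ⟨j, rfl | rfl⟩
    · rw [hee i j hs]
      split_ifs with h1 h2 h2 <;> first | rfl | omega
    · rw [hodd lam _ h, if_neg (by omega)]
      rw [mul_comp, (P_comp_neg lam (2 * i)).1, (P_comp_neg lam (2 * j)).2, pow_succ, pow_mul, pow_mul]
      simp
    · rw [hodd lam _ h, if_neg (by omega)]
      rw [mul_comp, (P_comp_neg lam (2 * i)).2, (P_comp_neg lam (2 * j)).1, pow_succ, pow_mul, pow_mul]
      simp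
    · rcases le_total i j with hle | hle
      · rw [hoo i j hle hs]
        split_ifs with h1 h2 h2 <;> first | rfl | omega
      · rw [mul_comm, hoo j i hle (by omega)]
        split_ifs with h1 h2 h2
        · subst h1; rfl
        · omega
        · omega
        · rfl

end Pool.Agent.Helper919.CE
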