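import Pool.Agent.Helper919.CE.Stage

set_option autoImplicit false

open Filter Topology

namespace Pool.Agent.Helper919.CE

/-- shift of a sequence -/
def sh (lam : ℕ → ℝ) : ℕ → ℝ := fun k => lam (k + 1)

/-- The ratio functions of consecutive orthogonal polynomials. -/
noncomputable def Nf : ℕ → (ℕ → ℝ) → ℝ → ℝ
  | 0, _ => fun z => z
  | (n + 1), lam => W (n + 1).bodd (lam 0) (Nf ((n + 1) / 2) (sh lam))
  termination_by n => n
  decreasing_by omega

/-- The recurrence coefficients. -/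
noncomputable def yv (lam : ℕ → ℝ) (n : ℕ) : ℝ :=
  if n.bodd then Nf (n / 2) (sh lam) (lam 0 - 1) / lam 0
  else (lam 0 - 1 - Nf (n / 2) (sh lam) (lam 0 - 1)) / lam 0

theorem Nf_zero (lam : ℕ → ℝ) : Nf 0 lam = fun z => z := by rw [Nf]

theorem W_id {l : ℝ} (hl : l ≠ 0) : W false l (fun z => z) = fun z => z := by
  funext z
  rw [W_false]
  unfold fq
  rcases eq_or_ne z 0 with rfl | hz
  · simp
  · field_simp; ring

theorem Nf_eq (n : ℕ) {lam : ℕ → ℝ} (h0 : lam 0 ≠ 0) :
    Nf n lam = W n.bodd (lam 0) (Nf (n / 2) (sh lam)) := by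
  cases n with
  | zero =>
    simp only [Nf_zero, Nat.bodd_zero, Nat.zero_div]
    exact (W_id h0).symm
  | succ n => rw [Nf]

theorem cl_Nf (n : ℕ) : ∀ {lam : ℕ → ℝ}, (∀ k, 2 < lam k) → Cl (Nf n lam) := by
  induction n using Nat.strong_induction_on with
  | _ n ih =>
    intro lam h
    cases n with
    | zero => rw [Nf_zero]; exact cl_id
    | succ n =>
      rw [Nf]
      exact (ih ((n + 1) / 2) (by omega) (lam := sh lam) (fun k => h (k + 1))).W (h 0) _

/-- digits and parameters of the first `h` levels of index `i` -/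
def dl : ℕ → ℕ → (ℕ → ℝ) → List (Bool × ℝ)
  | 0, _, _ => []
  | (h + 1), i, lam => (i.bodd, lam 0) :: dl h (i / 2) (sh lam)

theorem dl_mem {h : ℕ} : ∀ {i : ℕ} {lam : ℕ → ℝ}, (∀ k, 2 < lam k) → ∀ q ∈ dl h i lam, 2 < q.2 := by
  induction h with
  | zero => intro i lam _ q hq; simp [dl] at hq
  | succ h ih =>
    intro i lam hl q hq
    simp only [dl, List.mem_cons] at hq
    rcases hq with rfl | hq
    · exact hl 0
    · exact ih (lam := sh lam) (fun k => hl (k + 1)) q hq

theorem Nf_dl {h : ℕ} : ∀ {i K : ℕ} {lam : ℕ → ℝ}, (∀ k, 2 < lam k) → i < 2 ^ h →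
    Nf (i + 2 ^ h * K) lam = comp (dl h i lam) (Nf K (sh^[h] lam)) := by
  induction h with
  | zero =>
    intro i K lam _ hi
    have : i = 0 := by simpa using hi
    subst this
    simp [dl, comp]
  | succ h ih =>
    intro i K lam hl hi
    have e1 : (i + 2 ^ (h + 1) * K) / 2 = i / 2 + 2 ^ h * K := by
      rw [pow_succ, show 2 ^ h * 2 * K = 2 * (2 ^ h * K) by ring]
      omega
    have e2 : (i + 2 ^ (h + 1) * K).bodd = i.bodd := by
      rw [pow_succ, show 2 ^ h * 2 * K = 2 * (2 ^ h * K) by ring]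
      simp
    rw [Nf_eq _ (by have := hl 0; linarith : lam 0 ≠ 0) , e1, e2,
      ih (lam := sh lam) (fun k => hl (k + 1)) (by rw [pow_succ] at hi; omega)]
    simp only [dl, comp, Function.iterate_succ_apply]

/-- Product bound for strings of zeros. -/
theorem Nf_zeros (j : ℕ) : ∀ {M : ℕ} {lam : ℕ → ℝ}, (∀ k, 2 < lam k) → ∀ {z : ℝ}, 1 ≤ z →
    z - ∏ k ∈ Finset.range j, (2 / lam k) ≤ Nf (2 ^ j * M) lam z := by
  induction j with
  | zero =>
    intro M lam hl z hz
    have h1 : z - 1 / z ≤ Nf (2 ^ 0 * M) lam z := (cl_Nf _ hl z hz).1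
    have h2 : 1 / z ≤ 1 := by rw [div_le_one (by linarith)]; exact hz
    rw [Finset.range_zero, Finset.prod_empty]
    exact le_trans (sub_le_sub_left h2 z) h1
  | succ j ih =>
    intro M lam hl z hz
    have h0 : lam 0 ≠ 0 := by have := hl 0; linarith
    have e1 : (2 ^ (j + 1) * M) / 2 = 2 ^ j * M := by
      rw [pow_succ, show 2 ^ j * 2 * M = 2 * (2 ^ j * M) by ring]; omega
    have e2 : (2 ^ (j + 1) * M).bodd = false := by
      rw [pow_succ, show 2 ^ j * 2 * M = 2 * (2 ^ j * M) by ring]; simp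
    rw [Nf_eq _ h0, e1, e2, W_false]
    have hl' : ∀ k, 2 < sh lam k := fun k => hl (k + 1)
    have g1 := ih (M := M) hl' (one_le_fq (hl 0).le hz)
    have g2 := ih (M := M) hl' (z := lam 0 - 1) (by have := hl 0; linarith)
    rw [Finset.prod_range_succ']
    have g3 : ∏ k ∈ Finset.range j, (2 / lam (k + 1)) = ∏ k ∈ Finset.range j, (2 / sh lam k) := rfl
    rw [g3]
    have hP : 0 ≤ ∏ k ∈ Finset.range j, (2 / sh lam k) :=
      Finset.prod_nonneg fun k _ => by have := hl' k; positivity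
    have hlz : 0 < lam 0 * z := by have := hl 0; positivity
    rw [le_div_iff₀ hlz]
    have e3 : fq (lam 0) z + (lam 0 - 1) = lam 0 * z * z := by unfold fq; ring
    set P := ∏ k ∈ Finset.range j, (2 / sh lam k) with hPdef
    have e4 : (z - P * (2 / lam 0)) * (lam 0 * z) = lam 0 * z * z - 2 * P * z := by
      field_simp
    rw [e4]
    nlinarith

theorem sh_iter (h k : ℕ) (lam : ℕ → ℝ) : sh^[h] lam k = lam (k + h) := by
  induction h generalizing lam with
  | zero => rfl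
  | succ h ih => rw [Function.iterate_succ_apply, ih]; unfold sh; congr 1

theorem prod_tendsto {lam : ℕ → ℝ} (hl : ∀ k, 2 < lam k) (hi : ∀ n, ∃ k, n ≤ k ∧ lam k = 8 / 3) :
    Tendsto (fun j => ∏ k ∈ Finset.range j, (2 / lam k)) atTop (𝓝 0) := by
  set P : ℕ → ℝ := fun j => ∏ k ∈ Finset.range j, (2 / lam k) with hP
  have hpos : ∀ j, 0 < P j := fun j => Finset.prod_pos fun k _ => by have := hl k; positivity
  have hstep : ∀ j, P (j + 1) = P j * (2 / lam j) := fun j => Finset.prod_range_succ _ _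
  have hanti : Antitone P := by
    apply antitone_nat_of_succ_le
    intro j
    rw [hstep]
    have h1 : 2 / lam j ≤ 1 := by
      rw [div_le_one (by linarith [hl j])]; exact (hl j).le
    have := hpos j
    nlinarith
  obtain ⟨c, hc⟩ : ∃ c, Tendsto P atTop (𝓝 c) := by
    rcases tendsto_atTop_of_antitone hanti with h | h
    · exfalso
      have := h.eventually (eventually_lt_atBot (0:ℝ))
      obtain ⟨j, hj⟩ := this.exists
      linarith [hpos j]
    · exact h
  have hc0 : 0 ≤ c := ge_of_tendsto' hc fun j => (hpos j).le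
  have hc' : Tendsto (fun j => P (j + 1)) atTop (𝓝 c) := hc.comp (tendsto_add_atTop_nat 1)
  have hfreq : ∃ᶠ j in atTop, P (j + 1) = 3 / 4 * P j := by
    rw [frequently_atTop]
    intro n
    obtain ⟨k, hk1, hk2⟩ := hi n
    refine ⟨k, hk1, ?_⟩
    rw [hstep, hk2]; ring
  have hcc : c = 3 / 4 * c := by
    by_contra hne
    have hlim : Tendsto (fun j => P (j + 1) - 3 / 4 * P j) atTop (𝓝 (c - 3 / 4 * c)) :=
      hc'.sub (hc.const_mul _)
    have hev : ∀ᶠ j in atTop, P (j + 1) - 3 / 4 * P j ≠ 0 :=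
      hlim.eventually_ne (sub_ne_zero.2 hne)
    obtain ⟨j, hj1, hj2⟩ := (hfreq.and_eventually hev).exists
    exact hj2 (sub_eq_zero.2 hj1)
  have : c = 0 := by linarith
  rwa [this] at hc

/-- Convergence along long strings of zeros, uniformly in the higher digits. -/
theorem Nf_reset {lam : ℕ → ℝ} (hl : ∀ k, 2 < lam k) (hi : ∀ n, ∃ k, n ≤ k ∧ lam k = 8 / 3)
    (h i : ℕ) (hih : i < 2 ^ h) {z : ℝ} (hz : 1 ≤ z) :
    Tendsto (fun q : ℕ × ℕ => Nf (i + 2 ^ h * (2 ^ q.1 * q.2)) lam z) (comap Prod.fst atTop)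
      (𝓝 (Nf i lam z)) := by
  have hl' : ∀ k, 2 < (sh^[h] lam) k := fun k => by rw [sh_iter]; exact hl _
  have hi' : ∀ n, ∃ k, n ≤ k ∧ (sh^[h] lam) k = 8 / 3 := by
    intro n
    obtain ⟨k, hk1, hk2⟩ := hi (n + h)
    refine ⟨k - h, by omega, ?_⟩
    rw [sh_iter, Nat.sub_add_cancel (by omega), hk2]
  have base : ∀ z, 1 ≤ z → Tendsto (fun q : ℕ × ℕ => Nf (2 ^ q.1 * q.2) (sh^[h] lam) z)
      (comap Prod.fst atTop) (𝓝 z) := by
    intro z hz
    have lim1 : Tendsto (fun q : ℕ × ℕ => z - ∏ k ∈ Finset.range q.1, (2 / (sh^[h] lam) k))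
        (comap Prod.fst atTop) (𝓝 z) := by
      have := ((prod_tendsto hl' hi').const_sub z).comp (tendsto_comap (f := (Prod.fst : ℕ × ℕ → ℕ)))
      rw [sub_zero] at this
      exact this
    refine tendsto_of_tendsto_of_tendsto_of_le_of_le lim1 tendsto_const_nhds ?_ ?_
    · intro q; exact Nf_zeros q.1 hl' hz
    · intro q; exact (cl_Nf _ hl' z hz).2
  have e : ∀ q : ℕ × ℕ, Nf (i + 2 ^ h * (2 ^ q.1 * q.2)) lam z =
      comp (dl h i lam) (Nf (2 ^ q.1 * q.2) (sh^[h] lam)) z := fun q => by rw [Nf_dl hl hih]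
  have e0 : Nf i lam z = comp (dl h i lam) (fun z => z) z := by
    have := Nf_dl (K := 0) hl hih
    rw [mul_zero, add_zero, Nf_zero] at this
    rw [this]
  rw [e0]
  simp only [e]
  exact tendsto_comp (N := fun z => z) cl_id base (dl_mem hl) z hz

theorem yv_reset {lam : ℕ → ℝ} (hl : ∀ k, 2 < lam k) (hi : ∀ n, ∃ k, n ≤ k ∧ lam k = 8 / 3)
    (h i : ℕ) (hih : i < 2 ^ (h + 1)) :
    Tendsto (fun q : ℕ × ℕ => yv lam (i + 2 ^ (h + 1) * (2 ^ q.1 * q.2))) (comap Prod.fst atTop)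
      (𝓝 (yv lam i)) := by
  have hl' : ∀ k, 2 < sh lam k := fun k => hl (k + 1)
  have hi' : ∀ n, ∃ k, n ≤ k ∧ sh lam k = 8 / 3 := by
    intro n
    obtain ⟨k, hk1, hk2⟩ := hi (n + 1)
    refine ⟨k - 1, by omega, ?_⟩
    unfold sh
    rw [Nat.sub_add_cancel (by omega), hk2]
  have e1 : ∀ K, (i + 2 ^ (h + 1) * K) / 2 = i / 2 + 2 ^ h * K := by
    intro K
    rw [pow_succ, show 2 ^ h * 2 * K = 2 * (2 ^ h * K) by ring]
    omega
  have e2 : ∀ K, (i + 2 ^ (h + 1) * K).bodd = i.bodd := by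
    intro K
    rw [pow_succ, show 2 ^ h * 2 * K = 2 * (2 ^ h * K) by ring]
    simp
  have key := Nf_reset hl' hi' h (i / 2) (by rw [pow_succ] at hih; omega)
    (z := lam 0 - 1) (by have := hl 0; linarith)
  unfold yv
  simp only [e1, e2]
  cases i.bodd
  · simp only [Bool.false_eq_true, if_false]
    exact (key.const_sub _).div_const _
  · simp only [if_true]
    exact key.div_const _

end Pool.Agent.Helper919.CE
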