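import Pool.Agent.Helper919.CE.Lim

set_option autoImplicit false

open Filter Topology

namespace Pool.Agent.Helper919.CE

/-- A block of `I` even levels with parameter `2 + d` followed by one level `(b, l)`. -/
noncomputable def blk (I : ℕ) (d : ℝ) (b : Bool) (l : ℝ) : List (Bool × ℝ) :=
  List.replicate I (false, 2 + d) ++ [(b, l)]

/-- `m` copies of the block ending with `(true, 8/3)`. -/
noncomputable def blks (m I : ℕ) (d : ℝ) : List (Bool × ℝ) :=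
  (List.replicate m (blk I d true (8 / 3))).flatten

/-- A full stage. -/
noncomputable def stg (bs : Bool) (m I : ℕ) (ls d : ℝ) : List (Bool × ℝ) :=
  blk I d bs ls ++ blks m I d

theorem comp_rep_zero (I : ℕ) (N : ℝ → ℝ) : comp (List.replicate I (false, 2 + 0)) N = E2 I N := by
  induction I with
  | zero => rfl
  | succ n ih =>
    rw [List.replicate_succ, comp, ih, E2]
    simp

theorem comp_blk_zero (I : ℕ) (b : Bool) (l : ℝ) (N : ℝ → ℝ) :
    comp (blk I 0 b l) N = E2 I (W b l N) := by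
  rw [blk, comp_append, comp_rep_zero]; rfl

theorem blks_succ (m I : ℕ) (d : ℝ) : blks (m + 1) I d = blk I d true (8 / 3) ++ blks m I d := by
  simp [blks, List.replicate_succ]

theorem Cl.E2 {N : ℝ → ℝ} (h : Cl N) (I : ℕ) : Cl (E2 I N) := by
  induction I with
  | zero => exact h
  | succ n ih => exact ih.W_false le_rfl

theorem cl_val {N : ℝ → ℝ} (h : Cl N) : 0 ≤ N 1 ∧ N 1 ≤ 1 := by
  have := h 1 le_rfl
  norm_num at this
  exact this

theorem blk_limit {H : ℕ → ℝ → ℝ} {p : ℝ} (h0 : 0 ≤ p) (h1 : p ≤ 1) (hc : ∀ I, Cl (H I))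
    (hH : ∀ z, 1 ≤ z → Tendsto (fun I => H I z) atTop (𝓝 (Np p z))) (b : Bool) {l : ℝ}
    (hl : 2 < l) {z : ℝ} (hz : 1 ≤ z) :
    Tendsto (fun I => comp (blk I 0 b l) (H I) z) atTop (𝓝 (Np (W b l (Np p) 1) z)) := by
  simp only [comp_blk_zero]
  exact tendsto_E2 (fun n => (hc n).W hl b) (tendsto_W (cl_Np h0 h1) hH b hl le_rfl) hz

theorem blk_cl {H : ℝ → ℝ} (hc : Cl H) (I : ℕ) (b : Bool) {l : ℝ} (hl : 2 < l) :
    Cl (comp (blk I 0 b l) H) := by
  rw [comp_blk_zero]; exact (hc.W hl b).E2 I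

noncomputable def rr (p : ℝ) : ℝ := W true (8 / 3) (Np p) 1

theorem rr_mem {p : ℝ} (h0 : 0 ≤ p) (h1 : p ≤ 1) : 0 ≤ rr p ∧ rr p ≤ 1 :=
  cl_val ((cl_Np h0 h1).W (by norm_num) true)

theorem rri_mem {p : ℝ} (h0 : 0 ≤ p) (h1 : p ≤ 1) (m : ℕ) : 0 ≤ rr^[m] p ∧ rr^[m] p ≤ 1 := by
  induction m with
  | zero => exact ⟨h0, h1⟩
  | succ m ih => rw [Function.iterate_succ_apply']; exact rr_mem ih.1 ih.2

theorem blks_limit {p : ℝ} (h0 : 0 ≤ p) (h1 : p ≤ 1) (m : ℕ) :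
    (∀ I, Cl (comp (blks m I 0) (Np p))) ∧
    ∀ z, 1 ≤ z → Tendsto (fun I => comp (blks m I 0) (Np p) z) atTop (𝓝 (Np (rr^[m] p) z)) := by
  induction m with
  | zero =>
    refine ⟨fun I => by simpa [blks, comp] using cl_Np h0 h1, fun z _ => ?_⟩
    simp [blks, comp]
  | succ m ih =>
    refine ⟨fun I => ?_, fun z hz => ?_⟩
    · rw [blks_succ, comp_append]
      exact blk_cl (ih.1 I) I true (by norm_num)
    · simp only [blks_succ, comp_append]
      rw [Function.iterate_succ_apply']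
      exact blk_limit (rri_mem h0 h1 m).1 (rri_mem h0 h1 m).2 ih.1 ih.2 true (by norm_num) hz

theorem stg_limit {p : ℝ} (h0 : 0 ≤ p) (h1 : p ≤ 1) (m : ℕ) (bs : Bool) {ls : ℝ} (hls : 2 < ls)
    (z : ℝ) (hz : 1 ≤ z) :
    Tendsto (fun I => comp (stg bs m I ls 0) (Np p) z) atTop
      (𝓝 (Np (W bs ls (Np (rr^[m] p)) 1) z)) := by
  simp only [stg, comp_append]
  have h := blks_limit h0 h1 m
  exact blk_limit (rri_mem h0 h1 m).1 (rri_mem h0 h1 m).2 h.1 h.2 bs hls hz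

theorem jc_rep {G : ℝ → ℝ → ℝ} (h : JC G) (I : ℕ) :
    JC (fun d => comp (List.replicate I (false, 2 + d)) (G d)) := by
  induction I with
  | zero => exact h
  | succ n ih =>
    have := ih.tiny
    simpa only [List.replicate_succ, comp] using this

theorem jc_blk {G : ℝ → ℝ → ℝ} (h : JC G) (I : ℕ) (b : Bool) {l : ℝ} (hl : 2 < l) :
    JC (fun d => comp (blk I d b l) (G d)) := by
  have := jc_rep (h.fixed b hl) I
  simpa only [blk, comp_append, comp] using this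

theorem jc_blks {G : ℝ → ℝ → ℝ} (h : JC G) (m I : ℕ) :
    JC (fun d => comp (blks m I d) (G d)) := by
  induction m with
  | zero => simpa [blks, comp] using h
  | succ m ih =>
    have := jc_blk ih I true (l := 8 / 3) (by norm_num)
    simpa only [blks_succ, comp_append] using this

theorem jc_stg {p : ℝ} (h0 : 0 ≤ p) (h1 : p ≤ 1) (bs : Bool) (m I : ℕ) {ls : ℝ} (hls : 2 < ls) :
    JC (fun d => comp (stg bs m I ls d) (Np p)) := by
  have := jc_blk (jc_blks (jc_const (cl_Np h0 h1) (continuous_Np p).continuousOn) m I) I bs hls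
  simpa only [stg, comp_append] using this

theorem stg_delta {p : ℝ} (h0 : 0 ≤ p) (h1 : p ≤ 1) (bs : Bool) (m I : ℕ) {ls : ℝ} (hls : 2 < ls)
    (z : ℝ) (hz : 1 ≤ z) :
    Tendsto (fun d => comp (stg bs m I ls d) (Np p) z) (𝓝[>] 0)
      (𝓝 (comp (stg bs m I ls 0) (Np p) z)) :=
  (jc_stg h0 h1 bs m I hls).tendsto hz

theorem stg_delta_cl {p : ℝ} (h0 : 0 ≤ p) (h1 : p ≤ 1) (bs : Bool) (m I : ℕ) {ls : ℝ} (hls : 2 < ls) :
    Cl (comp (stg bs m I ls 0) (Np p)) :=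
  (jc_stg h0 h1 bs m I hls).2 0 le_rfl

theorem rr_le {p : ℝ} (h0 : 0 ≤ p) (_ : p ≤ 1) : rr p ≤ p / (p + 1) := by
  unfold rr
  rw [W_true]
  have e1 : fq (8 / 3) 1 = 1 := by unfold fq; norm_num
  have e2 : u (8 / 3 - 1) = 4 / 3 := by
    unfold u
    rw [show ((8:ℝ) / 3 - 1) ^ 2 - 1 = (4 / 3) ^ 2 by norm_num, Real.sqrt_sq (by norm_num)]
  rw [e1, Np_one]
  have e3 : 1 ≤ Np p (8 / 3 - 1) := by
    unfold Np; rw [e2]; nlinarith
  rw [one_mul]
  exact div_le_div_of_nonneg_left h0 (by linarith) (by linarith)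

theorem rr_pos {p : ℝ} (h0 : 0 < p) (h1 : p ≤ 1) : 0 < rr p := by
  unfold rr
  rw [W_true]
  have e1 : fq (8 / 3) 1 = 1 := by unfold fq; norm_num
  rw [e1, Np_one]
  have := (cl_Np h0.le h1).pos (z := 8 / 3 - 1) (by norm_num)
  positivity

theorem rri_pos {p : ℝ} (h0 : 0 < p) (h1 : p ≤ 1) (m : ℕ) : 0 < rr^[m] p := by
  induction m with
  | zero => exact h0
  | succ m ih =>
    rw [Function.iterate_succ_apply']
    exact rr_pos ih (rri_mem h0.le h1 m).2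

theorem rri_le (m : ℕ) : rr^[m] 1 ≤ 1 / ((m : ℝ) + 1) := by
  induction m with
  | zero => simp
  | succ m ih =>
    rw [Function.iterate_succ_apply']
    have hm := rri_mem zero_le_one le_rfl m
    refine (rr_le hm.1 hm.2).trans ?_
    push_cast
    rw [div_le_div_iff₀ (by linarith) (by positivity)]
    have h2 : rr^[m] 1 * ((m:ℝ) + 1) ≤ 1 := by
      have := mul_le_mul_of_nonneg_right ih (by positivity : (0:ℝ) ≤ (m:ℝ) + 1)
      rwa [div_mul_cancel₀ _ (by positivity)] at this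
    nlinarith

theorem rri_tendsto : Tendsto (fun m : ℕ => rr^[m] 1) atTop (𝓝 0) :=
  squeeze_zero (fun m => (rri_mem zero_le_one le_rfl m).1) rri_le tendsto_one_div_add_atTop_nhds_zero_nat

theorem rri_zero (m : ℕ) : rr^[m] 0 = 0 := by
  induction m with
  | zero => rfl
  | succ m ih =>
    rw [Function.iterate_succ_apply', ih]
    unfold rr
    rw [W_true]
    have e1 : fq (8 / 3) 1 = 1 := by unfold fq; norm_num
    rw [e1, Np_one]
    simp

theorem W_zero {ls : ℝ} : W true ls (Np 0) 1 = 0 := by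
  rw [W_true]
  have e1 : fq ls 1 = 1 := by unfold fq; ring
  rw [e1, Np_one]
  simp

/-- outer evaluation -/
noncomputable def Y (t : List (Bool × ℝ)) (N : ℝ → ℝ) : ℝ := comp t N (5 / 4)

theorem Y_tendsto {ι : Type*} {F : Filter ι} {t : List (Bool × ℝ)} (ht : ∀ q ∈ t, 2 < q.2)
    {G : ι → ℝ → ℝ} {N : ℝ → ℝ} (hN : Cl N)
    (h : ∀ z, 1 ≤ z → Tendsto (fun i => G i z) F (𝓝 (N z))) :
    Tendsto (fun i => Y t (G i)) F (𝓝 (Y t N)) :=
  tendsto_comp hN h ht _ (by norm_num)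

theorem Y_tendsto_p {ι : Type*} {F : Filter ι} {t : List (Bool × ℝ)} (ht : ∀ q ∈ t, 2 < q.2)
    {P : ι → ℝ} {p : ℝ} (h0 : 0 ≤ p) (h1 : p ≤ 1) (h : Tendsto P F (𝓝 p)) :
    Tendsto (fun i => Y t (Np (P i))) F (𝓝 (Y t (Np p))) := by
  apply Y_tendsto ht (cl_Np h0 h1)
  intro z _
  unfold Np
  exact (h.mul_const z).add ((h.const_sub 1).mul_const _)

theorem tendsto_sub_one : Tendsto (fun ls : ℝ => ls - 1) (𝓝[>] 2) (𝓝 1) := by
  have : Continuous fun ls : ℝ => ls - 1 := by fun_prop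
  have h := (this.tendsto 2).mono_left (nhdsWithin_le_nhds (s := Set.Ioi 2))
  norm_num at h
  exact h

theorem W_true_ls {q : ℝ} (hq : 0 < q) :
    Tendsto (fun ls : ℝ => W true ls (Np q) 1) (𝓝[>] 2) (𝓝 (1 / 2)) := by
  have h1 : ∀ ls : ℝ, W true ls (Np q) 1 = q / (q + Np q (ls - 1)) := by
    intro ls
    rw [W_true]
    have e1 : fq ls 1 = 1 := by unfold fq; ring
    rw [e1, Np_one, one_mul]
  simp only [h1]
  have h2 : Tendsto (fun ls : ℝ => Np q (ls - 1)) (𝓝[>] 2) (𝓝 q) := by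
    have := ((continuous_Np q).tendsto 1).comp tendsto_sub_one
    rwa [Np_one] at this
  have h3 : (1:ℝ) / 2 = q / (q + q) := by field_simp; ring
  rw [h3]
  exact tendsto_const_nhds.div (tendsto_const_nhds.add h2) (by linarith)

theorem W_false_ls {q : ℝ} :
    Tendsto (fun ls : ℝ => W false ls (Np q) 1) (𝓝[>] 2) (𝓝 q) := by
  have h1 : ∀ ls : ℝ, W false ls (Np q) 1 = (q + Np q (ls - 1)) / ls := by
    intro ls
    rw [W_false]
    have e1 : fq ls 1 = 1 := by unfold fq; ring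
    rw [e1, Np_one, mul_one]
  simp only [h1]
  have h2 : Tendsto (fun ls : ℝ => Np q (ls - 1)) (𝓝[>] 2) (𝓝 q) := by
    have := ((continuous_Np q).tendsto 1).comp tendsto_sub_one
    rwa [Np_one] at this
  have h3 : Tendsto (fun ls : ℝ => ls) (𝓝[>] (2:ℝ)) (𝓝 2) := tendsto_id.mono_left nhdsWithin_le_nhds
  have h4 : (q + q) / 2 = q := by ring
  have h5 : Tendsto (fun ls : ℝ => (q + Np q (ls - 1)) / ls) (𝓝[>] 2) (𝓝 ((q + q) / 2)) :=
    (tendsto_const_nhds.add h2).div h3 (by norm_num)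
  rwa [h4] at h5

theorem stg_snd (bs : Bool) (m I : ℕ) (ls d : ℝ) :
    (stg bs m I ls d).map Prod.snd = (stg true m I ls d).map Prod.snd := by
  simp [stg, blk]

theorem stg_mem {bs : Bool} {m I : ℕ} {ls d : ℝ} (h1 : 2 < ls) (h2 : ls ≤ 8 / 3) (h3 : 0 < d)
    (h4 : d ≤ 2 / 3) : ∀ q ∈ stg bs m I ls d, 2 < q.2 ∧ q.2 ≤ 8 / 3 := by
  intro q hq
  simp only [stg, blk, blks, List.mem_append, List.mem_flatten, List.mem_replicate,
    List.mem_singleton] at hq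
  rcases hq with (⟨_, rfl⟩ | rfl) | ⟨l, ⟨_, rfl⟩, hq⟩
  · constructor <;> simp only <;> linarith
  · exact ⟨h1, h2⟩
  · simp only [List.mem_append, List.mem_replicate, List.mem_singleton] at hq
    rcases hq with ⟨_, rfl⟩ | rfl
    · constructor <;> simp only <;> linarith
    · constructor <;> norm_num

theorem blks_last (m I : ℕ) (d : ℝ) : (blks (m + 1) I d).getLast? = some (true, 8 / 3) := by
  induction m with
  | zero => simp [blks, blk]
  | succ m ih => rw [blks_succ, List.getLast?_append, ih]; rfl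

theorem stg_last (bs : Bool) (m I : ℕ) (ls d : ℝ) :
    (stg bs (m + 1) I ls d).getLast? = some (true, 8 / 3) := by
  rw [stg, List.getLast?_append, blks_last]; rfl

/-- Step of the construction. -/
theorem step (t : List (Bool × ℝ)) (ht : ∀ q ∈ t, 2 < q.2)
    (h1 : Y t (Np 0) < 4 / 5) (h2 : 9 / 10 < Y t (Np (1 / 2))) :
    ∃ s s' : List (Bool × ℝ), (∀ q ∈ s, 2 < q.2 ∧ q.2 ≤ 8 / 3) ∧
      s'.map Prod.snd = s.map Prod.snd ∧ s.getLast? = some (true, 8 / 3) ∧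
      s'.getLast? = some (true, 8 / 3) ∧
      Y (t ++ s) (Np 0) < 4 / 5 ∧ 9 / 10 < Y (t ++ s) (Np (1 / 2)) ∧
      9 / 10 < Y (t ++ s) (Np 1) ∧ Y (t ++ s') (Np 1) < 4 / 5 := by
  -- choose m
  have hm : ∀ᶠ m : ℕ in atTop, Y t (Np (rr^[m] 1)) < 4 / 5 :=
    (Y_tendsto_p ht le_rfl zero_le_one rri_tendsto).eventually (gt_mem_nhds h1)
  obtain ⟨m', hm'1, hm'2⟩ := (hm.and (eventually_ge_atTop 1)).exists
  obtain ⟨m, rfl⟩ : ∃ m, m' = m + 1 := ⟨m' - 1, by omega⟩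
  have hA0 := rri_mem zero_le_one le_rfl (m + 1)
  have hApos : 0 < rr^[m + 1] 1 := rri_pos one_pos le_rfl _
  have hBpos : 0 < rr^[m + 1] (1 / 2) := rri_pos (by norm_num) (by norm_num) _
  -- choose ls
  have q1 : ∀ᶠ ls in 𝓝[>] (2:ℝ), 9 / 10 < Y t (Np (W true ls (Np (rr^[m + 1] (1 / 2))) 1)) :=
    (Y_tendsto_p ht (by norm_num) (by norm_num) (W_true_ls hBpos)).eventually (lt_mem_nhds h2)
  have q2 : ∀ᶠ ls in 𝓝[>] (2:ℝ), 9 / 10 < Y t (Np (W true ls (Np (rr^[m + 1] 1)) 1)) :=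
    (Y_tendsto_p ht (by norm_num) (by norm_num) (W_true_ls hApos)).eventually (lt_mem_nhds h2)
  have q3 : ∀ᶠ ls in 𝓝[>] (2:ℝ), Y t (Np (W false ls (Np (rr^[m + 1] 1)) 1)) < 4 / 5 :=
    (Y_tendsto_p ht hA0.1 hA0.2 W_false_ls).eventually (gt_mem_nhds hm'1)
  have q4 : ∀ᶠ ls in 𝓝[>] (2:ℝ), ls < 8 / 3 :=
    nhdsWithin_le_nhds (gt_mem_nhds (by norm_num))
  have q5 : ∀ᶠ ls in 𝓝[>] (2:ℝ), 2 < ls := self_mem_nhdsWithin
  obtain ⟨ls, l1, l2, l3, l4, l5⟩ := (q1.and (q2.and (q3.and (q4.and q5)))).exists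
  -- choose I
  have lim : ∀ (bs : Bool) {p : ℝ} (h0 : 0 ≤ p) (h1 : p ≤ 1),
      Tendsto (fun I => Y t (comp (stg bs (m + 1) I ls 0) (Np p))) atTop
        (𝓝 (Y t (Np (W bs ls (Np (rr^[m + 1] p)) 1)))) := by
    intro bs p h0 h1
    have hc := cl_val ((cl_Np (rri_mem h0 h1 (m + 1)).1 (rri_mem h0 h1 (m + 1)).2).W l5 bs)
    exact Y_tendsto ht (cl_Np hc.1 hc.2) (stg_limit h0 h1 (m + 1) bs l5)
  have i1 : ∀ᶠ I in atTop, 9 / 10 < Y t (comp (stg true (m + 1) I ls 0) (Np (1 / 2))) :=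
    (lim true (by norm_num) (by norm_num)).eventually (lt_mem_nhds l1)
  have i2 : ∀ᶠ I in atTop, 9 / 10 < Y t (comp (stg true (m + 1) I ls 0) (Np 1)) :=
    (lim true zero_le_one le_rfl).eventually (lt_mem_nhds l2)
  have i3 : ∀ᶠ I in atTop, Y t (comp (stg false (m + 1) I ls 0) (Np 1)) < 4 / 5 :=
    (lim false zero_le_one le_rfl).eventually (gt_mem_nhds l3)
  have i4 : ∀ᶠ I in atTop, Y t (comp (stg true (m + 1) I ls 0) (Np 0)) < 4 / 5 := by
    apply (lim true le_rfl zero_le_one).eventually (gt_mem_nhds _)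
    rw [rri_zero, W_zero]
    exact h1
  obtain ⟨I, j1, j2, j3, j4⟩ := (i1.and (i2.and (i3.and i4))).exists
  -- choose d
  have limd : ∀ (bs : Bool) {p : ℝ} (h0 : 0 ≤ p) (h1 : p ≤ 1),
      Tendsto (fun d => Y t (comp (stg bs (m + 1) I ls d) (Np p))) (𝓝[>] 0)
        (𝓝 (Y t (comp (stg bs (m + 1) I ls 0) (Np p)))) := by
    intro bs p h0 h1
    exact Y_tendsto ht (stg_delta_cl h0 h1 bs (m + 1) I l5) (stg_delta h0 h1 bs (m + 1) I l5)
  have d1 : ∀ᶠ d in 𝓝[>] (0:ℝ), 9 / 10 < Y t (comp (stg true (m + 1) I ls d) (Np (1 / 2))) :=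
    (limd true (by norm_num) (by norm_num)).eventually (lt_mem_nhds j1)
  have d2 : ∀ᶠ d in 𝓝[>] (0:ℝ), 9 / 10 < Y t (comp (stg true (m + 1) I ls d) (Np 1)) :=
    (limd true zero_le_one le_rfl).eventually (lt_mem_nhds j2)
  have d3 : ∀ᶠ d in 𝓝[>] (0:ℝ), Y t (comp (stg false (m + 1) I ls d) (Np 1)) < 4 / 5 :=
    (limd false zero_le_one le_rfl).eventually (gt_mem_nhds j3)
  have d4 : ∀ᶠ d in 𝓝[>] (0:ℝ), Y t (comp (stg true (m + 1) I ls d) (Np 0)) < 4 / 5 :=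
    (limd true le_rfl zero_le_one).eventually (gt_mem_nhds j4)
  have d5 : ∀ᶠ d in 𝓝[>] (0:ℝ), d < 2 / 3 := nhdsWithin_le_nhds (gt_mem_nhds (by norm_num))
  have d6 : ∀ᶠ d in 𝓝[>] (0:ℝ), 0 < d := self_mem_nhdsWithin
  obtain ⟨d, k1, k2, k3, k4, k5, k6⟩ := (d1.and (d2.and (d3.and (d4.and (d5.and d6))))).exists
  refine ⟨stg true (m + 1) I ls d, stg false (m + 1) I ls d, stg_mem l5 l4.le k6 k5.le,
    stg_snd _ _ _ _ _, stg_last _ _ _ _ _, stg_last _ _ _ _ _, ?_, ?_, ?_, ?_⟩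
  all_goals simp only [Y, comp_append] at *
  all_goals assumption

end Pool.Agent.Helper919.CE
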